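import Mathlib
import Pool.Agent.H447R2.MZ.Basic

/-!
# The connector `m! k! / (m + k)!` and the expansions of the tails of multiple zeta values
-/

set_option autoImplicit false

namespace Pool.Agent.K7.H57.Suf

open Filter Topology ENNReal
open Pool.Agent.H447R2.MZ (H H_nil H_cons H_cons_zero H_cons_succ H_nonneg)

/-- the connector -/
noncomputable def cn (m k : ℕ) : ℝ := (m.factorial * k.factorial : ℝ) / ((m + k).factorial : ℝ)

lemma cn_pos (m k : ℕ) : 0 < cn m k := by
  unfold cn; positivity

lemma cn_symm (m k : ℕ) : cn m k = cn k m := by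
  unfold cn; rw [mul_comm, add_comm]

lemma cn_zero (m : ℕ) : cn m 0 = 1 := by
  unfold cn
  simp [Nat.factorial_ne_zero]

lemma cn_zero' (k : ℕ) : cn 0 k = 1 := by rw [cn_symm, cn_zero]

lemma cn_succ (m k : ℕ) : cn m (k + 1) = cn m k * (((k : ℝ) + 1) / ((m : ℝ) + k + 1)) := by
  unfold cn
  rw [← add_assoc, Nat.factorial_succ, Nat.factorial_succ]
  push_cast
  have h1 : ((m + k).factorial : ℝ) ≠ 0 := by exact_mod_cast Nat.factorial_ne_zero _
  have h2 : (m : ℝ) + k + 1 ≠ 0 := by positivity
  field_simp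

lemma cn_anti (m k : ℕ) : cn m (k + 1) ≤ cn m k := by
  rw [cn_succ]
  refine mul_le_of_le_one_right (cn_pos m k).le ?_
  rw [div_le_one (by positivity)]
  linarith [Nat.cast_nonneg (α := ℝ) m]

lemma cn_antitone (m : ℕ) : Antitone (cn m) := antitone_nat_of_succ_le (cn_anti m)

lemma cn_one (k : ℕ) : cn 1 k = ((k : ℝ) + 1)⁻¹ := by
  induction k with
  | zero => rw [cn_zero]; norm_num
  | succ k ih =>
    rw [cn_succ, ih]
    push_cast
    have : (k : ℝ) + 1 ≠ 0 := by positivity
    have h2 : (1 : ℝ) + k + 1 ≠ 0 := by positivity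
    field_simp
    ring

lemma cn_tendsto {m : ℕ} (hm : 1 ≤ m) : Tendsto (cn m) atTop (𝓝 0) := by
  have h1 : ∀ k, cn m k ≤ cn 1 k := by
    intro k
    rw [cn_symm m, cn_symm 1]
    exact cn_antitone k hm
  refine squeeze_zero (fun k => (cn_pos m k).le) h1 ?_
  have : (cn 1) = fun k : ℕ => ((k : ℝ) + 1)⁻¹ := by funext k; exact cn_one k
  rw [this]
  exact tendsto_inv_atTop_zero.comp (tendsto_natCast_atTop_atTop.atTop_add tendsto_const_nhds)

/-- the telescoping identity -/
lemma cn_tel {m : ℕ} (hm : 1 ≤ m) (k : ℕ) :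
    ((k + 1 : ℕ) : ℝ)⁻¹ * cn m (k + 1) = (m : ℝ)⁻¹ * cn m k - (m : ℝ)⁻¹ * cn m (k + 1) := by
  rw [cn_succ]
  have h0 : (m : ℝ) ≠ 0 := by positivity
  have h2 : (m : ℝ) + k + 1 ≠ 0 := by positivity
  push_cast
  have h3 : (k : ℝ) + 1 ≠ 0 := by positivity
  field_simp
  ring

lemma transport {m : ℕ} (hm : 1 ≤ m) (k : ℕ) :
    HasSum (fun b : ℕ => ((k + 1 + b : ℕ) : ℝ)⁻¹ * cn m (k + 1 + b)) ((m : ℝ)⁻¹ * cn m k) := by
  rw [hasSum_iff_tendsto_nat_of_nonneg (fun b => mul_nonneg (by positivity) (cn_pos _ _).le)]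
  have h1 : ∀ n : ℕ, ∑ b ∈ Finset.range n, ((k + 1 + b : ℕ) : ℝ)⁻¹ * cn m (k + 1 + b) =
      (m : ℝ)⁻¹ * cn m k - (m : ℝ)⁻¹ * cn m (k + n) := by
    intro n
    induction n with
    | zero => simp
    | succ n ih =>
      rw [Finset.sum_range_succ, ih, show k + 1 + n = (k + n) + 1 by ring, cn_tel hm,
        show k + (n + 1) = (k + n) + 1 by ring]
      ring
  simp_rw [h1]
  have h2 : Tendsto (fun n => cn m (k + n)) atTop (𝓝 0) := by
    have := (cn_tendsto hm).comp (tendsto_add_atTop_nat k)
    refine this.congr fun n => ?_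
    simp [add_comm]
  have h3 := (h2.const_mul (m : ℝ)⁻¹).const_sub ((m : ℝ)⁻¹ * cn m k)
  simpa using h3

/-- the connector in `ℝ≥0∞` -/
noncomputable def cE (m k : ℕ) : ℝ≥0∞ := ENNReal.ofReal (cn m k)

/-- the inverse of a natural number in `ℝ≥0∞` -/
noncomputable def iE (m : ℕ) : ℝ≥0∞ := ENNReal.ofReal ((m : ℝ)⁻¹)

lemma transportE {m : ℕ} (hm : 1 ≤ m) (k : ℕ) :
    ∑' b : ℕ, iE (k + 1 + b) * cE m (k + 1 + b) = iE m * cE m k := by
  unfold iE cE
  rw [← ENNReal.ofReal_mul (by positivity), ← (transport hm k).tsum_eq,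
    ENNReal.ofReal_tsum_of_nonneg (fun b => mul_nonneg (by positivity) (cn_pos _ _).le)
      (transport hm k).summable]
  refine tsum_congr fun b => ?_
  rw [ENNReal.ofReal_mul (by positivity)]

lemma cE_symm (m k : ℕ) : cE m k = cE k m := by unfold cE; rw [cn_symm]

lemma transportE' {k : ℕ} (hk : 1 ≤ k) (m : ℕ) :
    ∑' b : ℕ, iE (m + 1 + b) * cE (m + 1 + b) k = iE k * cE m k := by
  rw [cE_symm m k, ← transportE hk m]
  exact tsum_congr fun b => by rw [cE_symm]

/-- reordering -/
lemma tsum_tri (G : ℕ → ℕ → ℝ≥0∞) :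
    ∑' k : ℕ, ∑' b : ℕ, G k (k + b) = ∑' n : ℕ, ∑ k ∈ Finset.range (n + 1), G k n := by
  have h1 : ∀ k : ℕ, ∑' b : ℕ, G k (k + b) = ∑' n : ℕ, if k ≤ n then G k n else 0 := by
    intro k
    have h := Summable.sum_add_tsum_nat_add' (f := fun n : ℕ => if k ≤ n then G k n else 0) (k := k)
      ENNReal.summable
    rw [← h, Finset.sum_eq_zero fun i hi => if_neg (by have := Finset.mem_range.1 hi; omega), zero_add]
    refine tsum_congr fun b => ?_
    rw [if_pos (by omega), add_comm]
  simp_rw [h1]
  rw [ENNReal.tsum_comm]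
  refine tsum_congr fun n => ?_
  rw [tsum_eq_sum (s := Finset.range (n + 1)) fun k hk => if_neg (by
    rw [Finset.mem_range] at hk; omega)]
  exact Finset.sum_congr rfl fun k hk => if_pos (by have := Finset.mem_range.1 hk; omega)

/-- multiplication by `1 / m` -/
lemma mul_inv_m {m : ℕ} (hm : 1 ≤ m) (f : ℕ → ℝ≥0∞) :
    iE m * ∑' k, f k * cE m k =
      ∑' n : ℕ, (iE (n + 1) * ∑ k ∈ Finset.range (n + 1), f k) * cE m (n + 1) := by
  rw [← ENNReal.tsum_mul_left]
  have h1 : ∀ k, iE m * (f k * cE m k) = ∑' b : ℕ, (fun k n => f k * (iE (n + 1) * cE m (n + 1))) k (k + b) := by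
    intro k
    simp only
    rw [ENNReal.tsum_mul_left, mul_left_comm, ← transportE hm k]
    congr 1
    refine tsum_congr fun b => ?_
    rw [show k + 1 + b = k + b + 1 by ring]
  rw [tsum_congr h1, tsum_tri (fun k n => f k * (iE (n + 1) * cE m (n + 1)))]
  refine tsum_congr fun n => ?_
  rw [← Finset.sum_mul]
  ring

/-- tails -/
lemma tail_m (m : ℕ) (f : ℕ → ℝ≥0∞) (h0 : f 0 = 0) :
    ∑' j : ℕ, iE (m + 1 + j) * ∑' k, f k * cE (m + 1 + j) k = ∑' k, (iE k * f k) * cE m k := by
  simp_rw [← ENNReal.tsum_mul_left]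
  rw [ENNReal.tsum_comm]
  refine tsum_congr fun k => ?_
  rcases Nat.eq_zero_or_pos k with rfl | hk
  · simp [h0]
  · have h1 : ∀ j, iE (m + 1 + j) * (f k * cE (m + 1 + j) k) = f k * (iE (m + 1 + j) * cE (m + 1 + j) k) := by
      intro j; ring
    simp_rw [h1]
    rw [ENNReal.tsum_mul_left, transportE' hk]
    ring

/-- coefficients: the difference of the harmonic sums of the word -/
noncomputable def hR : List ℕ → ℕ → ℝ
  | [], 0 => 1
  | [], _ + 1 => 0
  | _ :: _, 0 => 0
  | b :: w, k + 1 => (((k + 1 : ℕ) : ℝ) ^ b)⁻¹ * H w k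

lemma hR_nonneg (w : List ℕ) (k : ℕ) : 0 ≤ hR w k := by
  rcases w with _ | ⟨b, w⟩ <;> rcases k with _ | k <;> simp only [hR, le_refl, zero_le_one]
  exact mul_nonneg (by positivity) (H_nonneg _ _)

lemma sum_hR (w : List ℕ) (n : ℕ) : ∑ k ∈ Finset.range (n + 1), hR w k = H w n := by
  rcases w with _ | ⟨b, w⟩
  · rw [Finset.sum_range_succ', H_nil]
    simp [hR]
  · rw [Finset.sum_range_succ', H_cons]
    simp [hR]

/-- coefficients in `ℝ≥0∞` -/
noncomputable def hE (w : List ℕ) (k : ℕ) : ℝ≥0∞ := ENNReal.ofReal (hR w k)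

lemma hE_cons_zero (b : ℕ) (w : List ℕ) : hE (b :: w) 0 = 0 := by simp [hE, hR]

lemma sum_hE (w : List ℕ) (n : ℕ) : ∑ k ∈ Finset.range (n + 1), hE w k = ENNReal.ofReal (H w n) := by
  unfold hE
  rw [← ENNReal.ofReal_sum_of_nonneg fun k _ => hR_nonneg w k, sum_hR]

lemma mul_inv_hE {m : ℕ} (hm : 1 ≤ m) (w : List ℕ) :
    iE m * ∑' k, hE w k * cE m k = ∑' k, hE (1 :: w) k * cE m k := by
  rw [mul_inv_m hm, tsum_eq_zero_add' (f := fun k => hE (1 :: w) k * cE m k) ENNReal.summable,
    hE_cons_zero, zero_mul, zero_add]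
  refine tsum_congr fun n => ?_
  rw [sum_hE]
  congr 1
  unfold iE hE
  rw [← ENNReal.ofReal_mul (by positivity), hR, pow_one]

lemma mul_inv_pow_hE {m : ℕ} (hm : 1 ≤ m) (i : ℕ) (w : List ℕ) :
    iE m ^ i * ∑' k, hE w k * cE m k = ∑' k, hE (List.replicate i 1 ++ w) k * cE m k := by
  induction i with
  | zero => simp
  | succ i ih => rw [pow_succ', mul_assoc, ih, mul_inv_hE hm, List.replicate_succ, List.cons_append]

/-- adding one to the first letter -/
def bump : List ℕ → List ℕ
  | [] => []
  | b :: w => (b + 1) :: w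

lemma iE_hE (w : List ℕ) (hw : w ≠ []) (k : ℕ) : iE k * hE w k = hE (bump w) k := by
  obtain ⟨b, w, rfl⟩ : ∃ b t, w = b :: t := by
    cases w with
    | nil => exact absurd rfl hw
    | cons b t => exact ⟨b, t, rfl⟩
  rw [bump]
  rcases k with _ | k
  · rw [hE_cons_zero, hE_cons_zero, mul_zero]
  · unfold iE hE
    rw [← ENNReal.ofReal_mul (by positivity), hR, hR, pow_succ, mul_inv]
    congr 1
    ring

/-- the dual word of a reversed word -/
def dw : List ℕ → List ℕ
  | [] => []
  | a :: v => bump (List.replicate (a - 1) 1 ++ dw v)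

/-- admissible reversed words: the last letter is at least two, all letters are positive -/
def RA : List ℕ → Prop
  | [] => True
  | a :: v => 1 ≤ a ∧ (v = [] → 2 ≤ a) ∧ RA v

lemma dw_ne {a : ℕ} {v : List ℕ} (h : RA (a :: v)) : List.replicate (a - 1) 1 ++ dw v ≠ [] := by
  induction v generalizing a with
  | nil =>
    obtain ⟨_, h2, _⟩ := h
    have := h2 rfl
    obtain ⟨a', rfl⟩ : ∃ a', a = a' + 2 := ⟨a - 2, by omega⟩
    simp [List.replicate_succ]
  | cons b v ih =>
    have h1 := ih h.2.2
    intro h2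
    rw [List.append_eq_nil_iff, dw] at h2
    have h3 := h2.2
    revert h3 h1
    generalize List.replicate (b - 1) 1 ++ dw v = x
    intro h1 h3
    cases x with
    | nil => exact h1 rfl
    | cons y z => simp [bump] at h3

/-- the tails of the multiple zeta value of a reversed word -/
noncomputable def TE : List ℕ → ℕ → ℝ≥0∞
  | [], _ => 1
  | a :: v, m => ∑' j : ℕ, iE (m + 1 + j) ^ a * TE v (m + 1 + j)

/-- the expansion -/
theorem TE_eq (v : List ℕ) (hv : RA v) (m : ℕ) : TE v m = ∑' k, hE (dw v) k * cE m k := by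
  induction v generalizing m with
  | nil =>
    rw [TE, dw, tsum_eq_single 0]
    · simp [hE, hR, cE, cn_zero]
    · intro k hk
      obtain ⟨k, rfl⟩ := Nat.exists_eq_succ_of_ne_zero hk
      simp [hE, hR]
  | cons a v ih =>
    have ha : 1 ≤ a := hv.1
    obtain ⟨a', rfl⟩ : ∃ a', a = a' + 1 := ⟨a - 1, by omega⟩
    rw [TE, dw, Nat.add_sub_cancel]
    have hne : List.replicate a' 1 ++ dw v ≠ [] := by
      have := dw_ne hv
      rwa [Nat.add_sub_cancel] at this
    have h1 : ∀ j : ℕ, iE (m + 1 + j) ^ (a' + 1) * TE v (m + 1 + j) =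
        iE (m + 1 + j) * ∑' k, hE (List.replicate a' 1 ++ dw v) k * cE (m + 1 + j) k := by
      intro j
      rw [ih hv.2.2, pow_succ', mul_assoc, mul_inv_pow_hE (by omega)]
    simp_rw [h1]
    rw [tail_m]
    · refine tsum_congr fun k => ?_
      rw [iE_hE _ hne]
    · revert hne
      generalize List.replicate a' 1 ++ dw v = x
      intro hne
      cases x with
      | nil => exact absurd rfl hne
      | cons y z => exact hE_cons_zero y z

/-! ### injectivity -/

lemma bump_inj {x y : List ℕ} (h : bump x = bump y) : x = y := by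
  cases x with
  | nil =>
    cases y with
    | nil => rfl
    | cons b w => simp [bump] at h
  | cons a v =>
    cases y with
    | nil => simp [bump] at h
    | cons b w =>
      simp only [bump, List.cons.injEq, Nat.add_right_cancel_iff] at h
      rw [h.1, h.2]

/-- not starting with the letter one -/
def N1 (x : List ℕ) : Prop := ∀ t, x ≠ 1 :: t

lemma rep_inj {i j : ℕ} {x y : List ℕ} (hx : N1 x) (hy : N1 y)
    (h : List.replicate i 1 ++ x = List.replicate j 1 ++ y) : i = j ∧ x = y := by
  induction i generalizing j with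
  | zero =>
    cases j with
    | zero => simpa using h
    | succ j =>
      rw [List.replicate_zero, List.nil_append, List.replicate_succ, List.cons_append] at h
      exact absurd h (hx _)
  | succ i ih =>
    cases j with
    | zero =>
      rw [List.replicate_zero, List.nil_append, List.replicate_succ, List.cons_append] at h
      exact absurd h.symm (hy _)
    | succ j =>
      rw [List.replicate_succ, List.replicate_succ, List.cons_append, List.cons_append,
        List.cons.injEq] at h
      obtain ⟨h1, h2⟩ := ih h.2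
      exact ⟨by omega, h2⟩

lemma dw_pos (v : List ℕ) : ∀ x ∈ dw v, 1 ≤ x := by
  induction v with
  | nil => simp [dw]
  | cons a v ih =>
    rw [dw]
    have h1 : ∀ x ∈ List.replicate (a - 1) 1 ++ dw v, 1 ≤ x := by
      intro x hx
      rcases List.mem_append.1 hx with h | h
      · rw [(List.mem_replicate.1 h).2]
      · exact ih x h
    revert h1
    generalize List.replicate (a - 1) 1 ++ dw v = x
    intro h1
    cases x with
    | nil => simp [bump]
    | cons b w =>
      intro y hy
      rw [bump] at hy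
      rcases List.mem_cons.1 hy with rfl | hy
      · omega
      · exact h1 y (List.mem_cons_of_mem _ hy)

lemma dw_N1 (v : List ℕ) : N1 (dw v) := by
  intro t ht
  cases v with
  | nil => simp [dw] at ht
  | cons a v =>
    rw [dw] at ht
    have h1 : ∀ x ∈ List.replicate (a - 1) 1 ++ dw v, 1 ≤ x := by
      intro x hx
      rcases List.mem_append.1 hx with h | h
      · rw [(List.mem_replicate.1 h).2]
      · exact dw_pos v x h
    revert h1 ht
    generalize List.replicate (a - 1) 1 ++ dw v = x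
    intro ht h1
    cases x with
    | nil => simp [bump] at ht
    | cons b w =>
      simp only [bump, List.cons.injEq] at ht
      have := h1 b List.mem_cons_self
      omega

lemma dw_inj {v w : List ℕ} (hv : RA v) (hw : RA w) (h : dw v = dw w) : v = w := by
  induction v generalizing w with
  | nil =>
    cases w with
    | nil => rfl
    | cons b w =>
      have h1 := dw_ne hw
      rw [dw, dw] at h
      revert h h1
      generalize List.replicate (b - 1) 1 ++ dw w = x
      intro h h1
      cases x with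
      | nil => exact absurd rfl h1
      | cons y z => simp [bump] at h
  | cons a v ih =>
    cases w with
    | nil =>
      have h1 := dw_ne hv
      rw [dw, dw] at h
      revert h h1
      generalize List.replicate (a - 1) 1 ++ dw v = x
      intro h h1
      cases x with
      | nil => exact absurd rfl h1
      | cons y z => simp [bump] at h
    | cons b w =>
      rw [dw, dw] at h
      obtain ⟨h1, h2⟩ := rep_inj (dw_N1 v) (dw_N1 w) (bump_inj h)
      rw [ih hv.2.2 hw.2.2 h2]
      have := hv.1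
      have := hw.1
      rw [show a = b by omega]

end Pool.Agent.K7.H57.Suf
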