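import Mathlib
import Pool.Agent.K7.H57.Suf.Conn
import Pool.Agent.Q217.TT.Sums

/-!
# The tails of multiple zeta values
-/

set_option autoImplicit false

namespace Pool.Agent.K7.H57.Suf

open Filter Topology ENNReal
open Pool.Agent.H447R2.MZ (H H_nil H_cons H_cons_zero H_cons_succ H_nonneg Adm val tendsto_H H_le_val)
open Pool.Agent.Q217.TT (ep ep_nil ep_self ep_nonneg ep_succ ep_left ep_anti ep_mono H_app)

lemma ep_zero (u : List ℕ) (N : ℕ) : ep u 0 N = H u N := by
  induction u generalizing N with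
  | nil => rw [ep_nil, H_nil]
  | cons s p ih =>
    rw [ep, H_cons, ← Finset.range_eq_Ico]
    exact Finset.sum_congr rfl fun n _ => by rw [ih]

lemma ep_le_val {u : List ℕ} (hu : Adm u) {M N : ℕ} (h : M ≤ N) : ep u M N ≤ val u :=
  ((ep_anti u (Nat.zero_le M) h).trans (ep_zero u N).le).trans (H_le_val u hu N)

/-- the tail of the multiple zeta value: all variables larger than `m` -/
noncomputable def T (u : List ℕ) (m : ℕ) : ℝ := ⨆ N, ep u m (m + N)

lemma tendsto_T {u : List ℕ} (hu : Adm u) (m : ℕ) : Tendsto (fun N => ep u m N) atTop (𝓝 (T u m)) := by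
  have h1 : Monotone fun N => ep u m (m + N) := fun a b h => ep_mono (by omega) (by omega)
  have h2 : Tendsto (fun N => ep u m (m + N)) atTop (𝓝 (T u m)) :=
    tendsto_atTop_ciSup h1 ⟨val u, by rintro _ ⟨N, rfl⟩; exact ep_le_val hu (by omega)⟩
  rw [← tendsto_add_atTop_iff_nat m]
  refine h2.congr fun N => ?_
  rw [add_comm]

lemma ep_le_T {u : List ℕ} (hu : Adm u) {m N : ℕ} (h : m ≤ N) : ep u m N ≤ T u m :=
  ge_of_tendsto (tendsto_T hu m) (by
    filter_upwards [eventually_ge_atTop N] with N' hN'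
    exact ep_mono h hN')

lemma T_nonneg {u : List ℕ} (hu : Adm u) (m : ℕ) : 0 ≤ T u m := (ep_nonneg u m m).trans (ep_le_T hu le_rfl)

lemma T_nil (m : ℕ) : T [] m = 1 := by
  unfold T
  simp [ep_nil]

lemma T_zero {u : List ℕ} (hu : Adm u) : T u 0 = val u := by
  refine tendsto_nhds_unique (tendsto_T hu 0) ?_
  refine (tendsto_H u hu).congr fun N => (ep_zero u N).symm

lemma H_add_ep (u : List ℕ) (hu : u ≠ []) {M N : ℕ} (h : M ≤ N) : H u M + ep u M N ≤ H u N := by
  obtain ⟨s, p, rfl⟩ : ∃ b t, u = b :: t := by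
    cases u with
    | nil => exact absurd rfl hu
    | cons b t => exact ⟨b, t, rfl⟩
  induction N, h using Nat.le_induction with
  | base => rw [ep_self, add_zero]
  | succ N hN ih =>
    rw [ep_succ s p hN, H_cons_succ]
    have h1 : ep p M N ≤ H p N := (ep_anti p (Nat.zero_le M) hN).trans (ep_zero p N).le
    have h2 := mul_le_mul_of_nonneg_left h1 (by positivity : (0 : ℝ) ≤ (((N + 1 : ℕ) : ℝ) ^ s)⁻¹)
    linarith

lemma T_le {u : List ℕ} (hu : Adm u) (hne : u ≠ []) (m : ℕ) : T u m ≤ val u - H u m :=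
  le_of_tendsto (tendsto_T hu m) (by
    filter_upwards [eventually_ge_atTop m] with N hN
    have := H_add_ep u hne hN
    have := H_le_val u hu N
    linarith)

lemma T_tendsto_zero {u : List ℕ} (hu : Adm u) (hne : u ≠ []) : Tendsto (T u) atTop (𝓝 0) := by
  refine squeeze_zero (fun m => T_nonneg hu m) (fun m => T_le hu hne m) ?_
  have := (tendsto_H u hu).const_sub (val u)
  simpa using this

lemma adm_init {p : List ℕ} {s : ℕ} (h : Adm (p ++ [s])) : Adm p := by
  refine ⟨fun x hx => h.1 x (by simp [hx]), fun x t hx => ?_⟩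
  subst hx
  exact h.2 x (t ++ [s]) (by simp)

lemma T_left {p : List ℕ} {s : ℕ} (h : Adm (p ++ [s])) (M : ℕ) :
    T (p ++ [s]) M = T (p ++ [s]) (M + 1) + (((M + 1 : ℕ) : ℝ) ^ s)⁻¹ * T p (M + 1) := by
  have h1 := tendsto_T h M
  have h2 := (tendsto_T h (M + 1)).add ((tendsto_T (adm_init h) (M + 1)).const_mul (((M + 1 : ℕ) : ℝ) ^ s)⁻¹)
  refine tendsto_nhds_unique h1 (h2.congr' ?_)
  filter_upwards [eventually_ge_atTop (M + 1)] with N hN
  rw [ep_left p s hN]

lemma T_hasSum_left {p : List ℕ} {s : ℕ} (h : Adm (p ++ [s])) (m : ℕ) :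
    HasSum (fun j : ℕ => (((m + 1 + j : ℕ) : ℝ) ^ s)⁻¹ * T p (m + 1 + j)) (T (p ++ [s]) m) := by
  rw [hasSum_iff_tendsto_nat_of_nonneg (fun j => mul_nonneg (by positivity) (T_nonneg (adm_init h) _))]
  have h1 : ∀ n : ℕ, ∑ j ∈ Finset.range n, (((m + 1 + j : ℕ) : ℝ) ^ s)⁻¹ * T p (m + 1 + j) =
      T (p ++ [s]) m - T (p ++ [s]) (m + n) := by
    intro n
    induction n with
    | zero => simp
    | succ n ih =>
      rw [Finset.sum_range_succ, ih, T_left h (m + n), show m + 1 + n = m + n + 1 by ring,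
        show m + (n + 1) = m + n + 1 by ring]
      ring
  simp_rw [h1]
  have h2 : Tendsto (fun n => T (p ++ [s]) (m + n)) atTop (𝓝 0) := by
    have := (T_tendsto_zero h (by simp)).comp (tendsto_add_atTop_nat m)
    refine this.congr fun n => ?_
    simp [add_comm]
  simpa using h2.const_sub (T (p ++ [s]) m)

lemma iE_pow (m a : ℕ) : iE m ^ a = ENNReal.ofReal (((m : ℝ) ^ a)⁻¹) := by
  unfold iE
  rw [← ENNReal.ofReal_pow (by positivity), inv_pow]

lemma RA_of_adm (v : List ℕ) (h : Adm v.reverse) : RA v := by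
  induction v with
  | nil => trivial
  | cons a v ih =>
    rw [List.reverse_cons] at h
    refine ⟨h.1 a (by simp), ?_, ih (adm_init h)⟩
    rintro rfl
    exact h.2 a [] (by simp)

lemma TE_T (v : List ℕ) (h : Adm v.reverse) (m : ℕ) : ENNReal.ofReal (T v.reverse m) = TE v m := by
  induction v generalizing m with
  | nil => rw [List.reverse_nil, T_nil, TE, ENNReal.ofReal_one]
  | cons a v ih =>
    rw [List.reverse_cons] at h ⊢
    have hv := adm_init h
    rw [TE, ← (T_hasSum_left h m).tsum_eq,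
      ENNReal.ofReal_tsum_of_nonneg (fun j => mul_nonneg (by positivity) (T_nonneg hv _))
      (T_hasSum_left h m).summable]
    refine tsum_congr fun j => ?_
    rw [ENNReal.ofReal_mul (by positivity), ih hv, iE_pow]

/-- the expansion of the tails -/
theorem T_hasSum {u : List ℕ} (hu : Adm u) (m : ℕ) :
    HasSum (fun k => hR (dw u.reverse) k * cn m k) (T u m) := by
  have h0 : Adm u.reverse.reverse := by rwa [List.reverse_reverse]
  have h1 := TE_T u.reverse h0 m
  rw [List.reverse_reverse, TE_eq _ (RA_of_adm _ h0)] at h1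
  have h2 : ∀ k, hE (dw u.reverse) k * cE m k = ENNReal.ofReal (hR (dw u.reverse) k * cn m k) := by
    intro k
    unfold hE cE
    rw [← ENNReal.ofReal_mul (hR_nonneg _ _)]
  simp_rw [h2] at h1
  have h3 : ∑' k, ENNReal.ofReal (hR (dw u.reverse) k * cn m k) ≠ ⊤ := by
    rw [← h1]
    exact ENNReal.ofReal_ne_top
  have h4 := ENNReal.hasSum_toReal h3
  have h5 : (∑' k, (ENNReal.ofReal (hR (dw u.reverse) k * cn m k)).toReal) = T u m := by
    rw [← ENNReal.tsum_toReal_eq (fun k => ENNReal.ofReal_ne_top), ← h1,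
      ENNReal.toReal_ofReal (T_nonneg hu m)]
  rw [h5] at h4
  have h6 : (fun k => (ENNReal.ofReal (hR (dw u.reverse) k * cn m k)).toReal) =
      fun k => hR (dw u.reverse) k * cn m k :=
    funext fun k => ENNReal.toReal_ofReal (mul_nonneg (hR_nonneg _ _) (cn_pos _ _).le)
  rw [h6] at h4
  exact h4

/-- the value of `u s` -/
theorem val_hasSum {u : List ℕ} (hu : Adm u) {a : ℕ} {s : List ℕ} (hus : Adm (u ++ a :: s)) :
    HasSum (fun n : ℕ => H s n * (((n + 1 : ℕ) : ℝ) ^ a)⁻¹ * T u (n + 1)) (val (u ++ a :: s)) := by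
  have hw : ∀ n : ℕ, 0 ≤ H s n * (((n + 1 : ℕ) : ℝ) ^ a)⁻¹ := fun n =>
    mul_nonneg (H_nonneg _ _) (by positivity)
  rw [hasSum_iff_tendsto_nat_of_nonneg (fun n => mul_nonneg (hw n) (T_nonneg hu _))]
  refine tendsto_of_tendsto_of_tendsto_of_le_of_le (tendsto_H _ hus) tendsto_const_nhds (fun N => ?_) (fun N => ?_)
  · simp only
    rw [H_app]
    refine Finset.sum_le_sum fun n hn => mul_le_mul_of_nonneg_left (ep_le_T hu ?_) (hw n)
    have := Finset.mem_range.1 hn
    omega
  · have h1 : Tendsto (fun N' => ∑ n ∈ Finset.range N, H s n * (((n + 1 : ℕ) : ℝ) ^ a)⁻¹ * ep u (n + 1) N')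
        atTop (𝓝 (∑ n ∈ Finset.range N, H s n * (((n + 1 : ℕ) : ℝ) ^ a)⁻¹ * T u (n + 1))) :=
      tendsto_finsetSum _ fun n _ => (tendsto_T hu (n + 1)).const_mul _
    refine le_of_tendsto h1 ?_
    filter_upwards [eventually_ge_atTop N] with N' hN'
    refine le_trans ?_ (H_le_val _ hus N')
    rw [H_app]
    refine Finset.sum_le_sum_of_subset_of_nonneg (Finset.range_mono hN') fun n _ _ =>
      mul_nonneg (hw n) (ep_nonneg _ _ _)

lemma H_zero_of_lt (s : List ℕ) : ∀ n < s.length, H s n = 0 := by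
  induction s with
  | nil => intro n hn; exact absurd hn (Nat.not_lt_zero _)
  | cons a s ih =>
    intro n hn
    rw [H_cons]
    refine Finset.sum_eq_zero fun k hk => ?_
    rw [ih k (by have := Finset.mem_range.1 hk; rw [List.length_cons] at hn; omega), mul_zero]

lemma H_pos (s : List ℕ) : 0 < H s s.length := by
  induction s with
  | nil => rw [H_nil]; exact one_pos
  | cons a s ih =>
    rw [List.length_cons, H_cons_succ]
    have h1 := H_nonneg (a :: s) s.length
    have h2 : (0 : ℝ) < (((s.length + 1 : ℕ) : ℝ) ^ a)⁻¹ * H s s.length := mul_pos (by positivity) ih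
    linarith

lemma val_pos {u : List ℕ} (hu : Adm u) : 0 < val u := (H_pos u).trans_le (H_le_val u hu _)

lemma T_pos {u : List ℕ} (hu : Adm u) (m : ℕ) : 0 < T u m :=
  (Pool.Agent.Q217.TT.ep_pos u m).trans_le (ep_le_T hu (by omega))

end Pool.Agent.K7.H57.Suf
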