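import Mathlib
import Pool.Agent.K7.H57.Suf.Tail
import Pool.Agent.Q217.TT.Indep

/-!
# No relations of small height between the words `u s`, `u ∈ U`
-/

set_option autoImplicit false

namespace Pool.Agent.K7.H57.Suf

open Filter Topology
open Pool.Agent.H447R2.MZ (H H_nil H_cons H_cons_zero H_cons_succ H_nonneg Adm val tendsto_H H_le_val)
open Pool.Agent.Q217.TT (indep_fin common_den H_nat)

/-- the dual word, with letters in `ℕ+` -/
def dP (u : List ℕ) : List ℕ+ := (dw u.reverse).map Nat.toPNat'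

lemma nat_map (l : List ℕ) (h : ∀ x ∈ l, 1 ≤ x) : Pool.Agent.Q217.TT.nat (l.map Nat.toPNat') = l := by
  unfold Pool.Agent.Q217.TT.nat
  rw [List.map_map]
  conv_rhs => rw [← List.map_id l]
  refine List.map_congr_left fun x hx => ?_
  simp [Nat.toPNat'_coe, Nat.pos_of_ne_zero (by have := h x hx; omega : x ≠ 0)]

lemma nat_dP (u : List ℕ) : Pool.Agent.Q217.TT.nat (dP u) = dw u.reverse := nat_map _ (dw_pos _)

lemma dP_inj {u v : List ℕ} (hu : Adm u) (hv : Adm v) (h : dP u = dP v) : u = v := by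
  have h1 : dw u.reverse = dw v.reverse := by rw [← nat_dP, ← nat_dP, h]
  have h2 := dw_inj (RA_of_adm _ (by rwa [List.reverse_reverse])) (RA_of_adm _ (by rwa [List.reverse_reverse])) h1
  exact List.reverse_injective h2

lemma first (U : Finset (List ℕ)) (hU : ∀ u ∈ U, Adm u) : ∃ M D : ℕ, 1 ≤ D ∧ ∀ c : List ℕ → ℤ,
    (∃ u ∈ U, c u ≠ 0) → ∃ k0 ≤ M, (∀ k < k0, ∑ u ∈ U, (c u : ℝ) * hR (dw u.reverse) k = 0) ∧
      1 / (D : ℝ) ≤ |∑ u ∈ U, (c u : ℝ) * hR (dw u.reverse) k0| := by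
  classical
  have hinj : Set.InjOn dP U := fun u hu v hv h => dP_inj (hU u hu) (hU v hv) h
  obtain ⟨M, hM⟩ := indep_fin (U.image dP)
  obtain ⟨D, hD1, hD⟩ := common_den (U.image dP) M
  refine ⟨M, D, hD1, fun c hne => ?_⟩
  -- the coefficients on the dual words
  let c' : List ℕ+ → ℤ := fun w => c (Function.invFunOn dP U w)
  have hc' : ∀ u ∈ U, c' (dP u) = c u := by
    intro u hu
    have h1 : Function.invFunOn dP U (dP u) = u := by
      have h2 : ∃ v ∈ (U : Set (List ℕ)), dP v = dP u := ⟨u, hu, rfl⟩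
      exact hinj (Function.invFunOn_mem h2) hu (Function.invFunOn_eq h2)
    simp only [c', h1]
  have hsum : ∀ n : ℕ, ∑ w ∈ U.image dP, (c' w : ℚ) * Pool.Agent.TH507.HS.hs w (n + 1) =
      ∑ u ∈ U, (c u : ℚ) * Pool.Agent.TH507.HS.hs (dP u) (n + 1) := by
    intro n
    rw [Finset.sum_image fun u hu v hv h => hinj hu hv h]
    exact Finset.sum_congr rfl fun u hu => by rw [hc' u hu]
  let F : ℕ → ℝ := fun n => ∑ u ∈ U, (c u : ℝ) * H (dw u.reverse) n
  let G : ℕ → ℝ := fun k => ∑ u ∈ U, (c u : ℝ) * hR (dw u.reverse) k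
  have hF : ∀ n, F n = ((∑ u ∈ U, (c u : ℚ) * Pool.Agent.TH507.HS.hs (dP u) (n + 1) : ℚ) : ℝ) := by
    intro n
    push_cast
    exact Finset.sum_congr rfl fun u _ => by rw [← H_nat, nat_dP]
  have hFG : ∀ n, F n = ∑ k ∈ Finset.range (n + 1), G k := by
    intro n
    simp only [F, G]
    rw [Finset.sum_comm]
    refine Finset.sum_congr rfl fun u _ => ?_
    rw [← Finset.mul_sum, sum_hR]
  have hex : ∃ n, n ≤ M ∧ F n ≠ 0 := by
    by_contra h
    push Not at h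
    obtain ⟨u, hu, hcu⟩ := hne
    apply hcu
    have h1 := hM (fun w => (c' w : ℚ)) (fun n hn => by
      rw [hsum]
      have := h n hn
      rw [hF] at this
      exact_mod_cast this) (dP u) (Finset.mem_image_of_mem _ hu)
    rw [hc' u hu] at h1
    exact_mod_cast h1
  have hn0 := Nat.find_spec hex
  have hmin : ∀ n < Nat.find hex, F n = 0 := by
    intro n hn
    have h1 := Nat.find_min hex hn
    by_contra h2
    exact h1 ⟨hn.le.trans hn0.1, h2⟩
  set n0 := Nat.find hex with hn0def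
  have hG0 : ∀ k < n0, G k = 0 := by
    intro k hk
    have h1 := hmin k hk
    rw [hFG, Finset.sum_range_succ] at h1
    rcases Nat.eq_zero_or_pos k with rfl | hk0
    · simpa using h1
    · obtain ⟨k', rfl⟩ : ∃ k', k = k' + 1 := ⟨k - 1, by omega⟩
      have h2 := hmin k' (by omega)
      rw [hFG] at h2
      linarith
  have hGn : G n0 = F n0 := by
    rw [hFG, Finset.sum_range_succ, Finset.sum_eq_zero fun k hk => hG0 k (Finset.mem_range.1 hk), zero_add]
  refine ⟨n0, hn0.1, hG0, ?_⟩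
  change 1 / (D : ℝ) ≤ |G n0|
  rw [hGn, hF]
  have h1 := hD c' n0 hn0.1 (by
    rw [hsum]
    intro h
    apply hn0.2
    rw [hF, h, Rat.cast_zero])
  rw [hsum] at h1
  have h2 := (Rat.cast_le (K := ℝ)).2 h1
  rw [Rat.cast_div, Rat.cast_one, Rat.cast_natCast, Rat.cast_abs] at h2
  exact h2

/-- the tails of a combination -/
lemma tails (U : Finset (List ℕ)) (hU : ∀ u ∈ U, Adm u) (c : List ℕ → ℤ) (k0 : ℕ) {B : ℝ} (hB : ∀ u ∈ U, |(c u : ℝ)| ≤ B)
    (h0 : ∀ k < k0, ∑ u ∈ U, (c u : ℝ) * hR (dw u.reverse) k = 0) (m : ℕ) :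
    |∑ u ∈ U, (c u : ℝ) * T u m - (∑ u ∈ U, (c u : ℝ) * hR (dw u.reverse) k0) * cn m k0| ≤
      B * (∑ u ∈ U, val u) * cn m (k0 + 1) := by
  have hs : HasSum (fun k => ∑ u ∈ U, (c u : ℝ) * (hR (dw u.reverse) k * cn m k)) (∑ u ∈ U, (c u : ℝ) * T u m) :=
    hasSum_sum fun u hu => (T_hasSum (hU u hu) m).mul_left _
  have hs1 := (hasSum_nat_add_iff' (k0 + 1)).2 hs
  have h1 : ∑ k ∈ Finset.range (k0 + 1), ∑ u ∈ U, (c u : ℝ) * (hR (dw u.reverse) k * cn m k) =
      (∑ u ∈ U, (c u : ℝ) * hR (dw u.reverse) k0) * cn m k0 := by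
    rw [Finset.sum_range_succ, Finset.sum_eq_zero fun k hk => ?_, zero_add, Finset.sum_mul]
    · exact Finset.sum_congr rfl fun u _ => by ring
    · have h2 := h0 k (Finset.mem_range.1 hk)
      have h3 : ∑ u ∈ U, (c u : ℝ) * (hR (dw u.reverse) k * cn m k) =
          (∑ u ∈ U, (c u : ℝ) * hR (dw u.reverse) k) * cn m k := by
        rw [Finset.sum_mul]
        exact Finset.sum_congr rfl fun u _ => by ring
      rw [h3, h2, zero_mul]
  rw [h1] at hs1
  -- the bounding series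
  have hb : HasSum (fun k => ∑ u ∈ U, B * (hR (dw u.reverse) k * cn 0 k)) (∑ u ∈ U, B * val u) := by
    refine hasSum_sum fun u hu => ?_
    have := (T_hasSum (hU u hu) 0).mul_left B
    rwa [T_zero (hU u hu)] at this
  have hb1 := (hasSum_nat_add_iff' (k0 + 1)).2 hb
  have hb2 := hb1.mul_right (cn m (k0 + 1))
  have hle : ∀ k, |∑ u ∈ U, (c u : ℝ) * (hR (dw u.reverse) (k + (k0 + 1)) * cn m (k + (k0 + 1)))| ≤
      (∑ u ∈ U, B * (hR (dw u.reverse) (k + (k0 + 1)) * cn 0 (k + (k0 + 1)))) * cn m (k0 + 1) := by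
    intro k
    refine (Finset.abs_sum_le_sum_abs _ _).trans ?_
    rw [Finset.sum_mul]
    refine Finset.sum_le_sum fun u hu => ?_
    have h4 := hR_nonneg (dw u.reverse) (k + (k0 + 1))
    have h5 := (cn_pos m (k + (k0 + 1))).le
    have h6 : cn m (k + (k0 + 1)) ≤ cn m (k0 + 1) := cn_antitone m (by omega)
    rw [abs_mul, abs_of_nonneg (mul_nonneg h4 h5), cn_zero', mul_one, mul_assoc]
    exact mul_le_mul (hB u hu) (mul_le_mul_of_nonneg_left h6 h4) (mul_nonneg h4 h5)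
      ((abs_nonneg _).trans (hB u hu))
  rw [← hs1.tsum_eq]
  have h7 : Summable fun k => |∑ u ∈ U, (c u : ℝ) * (hR (dw u.reverse) (k + (k0 + 1)) * cn m (k + (k0 + 1)))| :=
    Summable.of_nonneg_of_le (fun _ => abs_nonneg _) hle hb2.summable
  have h8 : |∑' k, ∑ u ∈ U, (c u : ℝ) * (hR (dw u.reverse) (k + (k0 + 1)) * cn m (k + (k0 + 1)))| ≤
      ∑' k, |∑ u ∈ U, (c u : ℝ) * (hR (dw u.reverse) (k + (k0 + 1)) * cn m (k + (k0 + 1)))| := by
    have := norm_tsum_le_tsum_norm (f := fun k => ∑ u ∈ U, (c u : ℝ) * (hR (dw u.reverse) (k + (k0 + 1)) *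
      cn m (k + (k0 + 1)))) (by simpa [Real.norm_eq_abs] using h7)
    simpa [Real.norm_eq_abs] using this
  refine h8.trans ((h7.tsum_le_tsum hle hb2.summable).trans ?_)
  rw [hb2.tsum_eq]
  refine mul_le_mul_of_nonneg_right ?_ (cn_pos _ _).le
  have h9 : 0 ≤ ∑ k ∈ Finset.range (k0 + 1), ∑ u ∈ U, B * (hR (dw u.reverse) k * cn 0 k) := by
    refine Finset.sum_nonneg fun k _ => Finset.sum_nonneg fun u hu => ?_
    exact mul_nonneg ((abs_nonneg _).trans (hB u hu)) (mul_nonneg (hR_nonneg _ _) (cn_pos _ _).le)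
  rw [Finset.mul_sum]
  linarith

lemma H_ones_zero (M : ℕ) : ∀ n < M, H (List.replicate M 1) n = 0 := by
  intro n hn
  exact H_zero_of_lt _ n (by rwa [List.length_replicate])

lemma T_single (M : ℕ) (hM : 1 ≤ M) (m : ℕ) : T [M + 1] m ≤ val [M + 1] * cn m M := by
  have hadm : Adm [M + 1] := ⟨by simp, fun x t h => by
    rw [← (List.cons.inj h).1]
    omega⟩
  obtain ⟨M', rfl⟩ : ∃ M', M = M' + 1 := ⟨M - 1, by omega⟩
  have h1 := T_hasSum hadm m
  have h2 := T_hasSum hadm 0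
  rw [T_zero hadm] at h2
  have h3 := h2.mul_right (cn m (M' + 1))
  refine hasSum_le (fun k => ?_) h1 h3
  rw [cn_zero', mul_one]
  rcases Nat.lt_or_ge k (M' + 1) with hk | hk
  · have h4 : hR (dw [M' + 1 + 1].reverse) k = 0 := by
      rw [List.reverse_singleton, dw, dw, List.append_nil, Nat.add_sub_cancel, List.replicate_succ, bump]
      rcases k with _ | k
      · simp [hR]
      · rw [hR, H_ones_zero M' k (by omega), mul_zero]
    rw [h4, zero_mul, zero_mul]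
  · exact mul_le_mul_of_nonneg_left (cn_antitone m hk) (hR_nonneg _ _)

theorem main (U : Finset (List ℕ)) (hU : ∀ u ∈ U, Adm u) : ∃ κ : ℝ, 0 < κ ∧ ∃ M : ℕ, 2 ≤ M ∧
    ∀ (a : ℕ) (s : List ℕ), 1 ≤ a → (∀ x ∈ s, 1 ≤ x) → ([] ∈ U → 2 ≤ a) → ∀ c : List ℕ → ℤ,
      (∀ u ∈ U, |(c u : ℝ)| ≤ κ * ((s.length : ℝ) + 1)) → (∃ u ∈ U, c u ≠ 0) →
      κ * val (M :: a :: s) ≤ |∑ u ∈ U, (c u : ℝ) * val (u ++ a :: s)| := by
  classical
  obtain ⟨M0, D, hD1, hfirst⟩ := first U hU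
  set M1 := max M0 1 with hM1
  have hDr : (0 : ℝ) < D := by exact_mod_cast hD1
  set Z : ℝ := ∑ u ∈ U, val u with hZ
  have hZ0 : 0 ≤ Z := Finset.sum_nonneg fun u hu => (val_pos (hU u hu)).le
  have hadm1 : Adm [M1 + 1] := ⟨by simp, fun x t h => by
    rw [← (List.cons.inj h).1]
    omega⟩
  set V : ℝ := val [M1 + 1] with hV
  have hV0 : 0 < V := val_pos hadm1
  set κ1 : ℝ := 1 / (2 * D * ((M0 : ℝ) + 1) * (Z + 1)) with hκ1
  have hκ10 : 0 < κ1 := by rw [hκ1]; positivity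
  set κ2 : ℝ := 1 / (2 * D * V) with hκ2
  have hκ20 : 0 < κ2 := by rw [hκ2]; positivity
  refine ⟨min κ1 κ2, lt_min hκ10 hκ20, M1 + 1, by omega, fun a s ha hs hnil c hc hne => ?_⟩
  obtain ⟨k0, hk0, hG0, hG⟩ := hfirst c hne
  set g : ℝ := ∑ u ∈ U, (c u : ℝ) * hR (dw u.reverse) k0 with hg
  -- admissibility
  have hadmu : ∀ u ∈ U, Adm (u ++ a :: s) := by
    intro u hu
    refine ⟨fun x hx => ?_, fun x t h => ?_⟩
    · rcases List.mem_append.1 hx with h | h
      · exact (hU u hu).1 x h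
      · rcases List.mem_cons.1 h with rfl | h
        · exact ha
        · exact hs x h
    · cases u with
      | nil =>
        rw [List.nil_append] at h
        rw [← (List.cons.inj h).1]
        exact hnil hu
      | cons y p =>
        rw [List.cons_append] at h
        rw [← (List.cons.inj h).1]
        exact (hU _ hu).2 y p rfl
  have hadmM : Adm ([M1 + 1] ++ a :: s) := by
    refine ⟨fun x hx => ?_, fun x t h => ?_⟩
    · rcases List.mem_append.1 hx with h | h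
      · exact hadm1.1 x h
      · rcases List.mem_cons.1 h with rfl | h
        · exact ha
        · exact hs x h
    · rw [List.cons_append] at h
      rw [← (List.cons.inj h).1]
      omega
  have hL : (0 : ℝ) < (s.length : ℝ) + 1 := by positivity
  set B : ℝ := κ1 * ((s.length : ℝ) + 1) with hB
  have hcB : ∀ u ∈ U, |(c u : ℝ)| ≤ B := fun u hu =>
    (hc u hu).trans (mul_le_mul_of_nonneg_right (min_le_left _ _) hL.le)
  -- the sign
  obtain ⟨σ, hσ1, hσ⟩ : ∃ σ : ℝ, |σ| = 1 ∧ σ * g = |g| := by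
    rcases le_total 0 g with h | h
    · exact ⟨1, abs_one, by rw [one_mul, abs_of_nonneg h]⟩
    · exact ⟨-1, by rw [abs_neg, abs_one], by rw [abs_of_nonpos h]; ring⟩
  have hlow : ∀ m : ℕ, s.length + 1 ≤ m → 1 / (2 * (D : ℝ)) * cn m M1 ≤ σ * ∑ u ∈ U, (c u : ℝ) * T u m := by
    intro m hm
    have h1 := tails U hU c k0 hcB hG0 m
    have hk0r : (k0 : ℝ) ≤ M0 := by exact_mod_cast hk0
    have hmr : (s.length : ℝ) + 1 ≤ m := by exact_mod_cast hm
    have hm0 : (0 : ℝ) < m := lt_of_lt_of_le hL hmr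
    have hcn := cn_pos m k0
    have h2 : B * Z * cn m (k0 + 1) ≤ 1 / (2 * (D : ℝ)) * cn m k0 := by
      rw [cn_succ]
      have h3 : ((k0 : ℝ) + 1) / ((m : ℝ) + k0 + 1) ≤ ((M0 : ℝ) + 1) / m := by
        apply div_le_div₀ (by positivity) (by linarith) hm0
        have : (0 : ℝ) ≤ k0 := Nat.cast_nonneg _
        linarith
      have h4 : B * Z * (((M0 : ℝ) + 1) / m) ≤ 1 / (2 * (D : ℝ)) := by
        rw [hB, hκ1]
        have e : 1 / (2 * (D : ℝ) * ((M0 : ℝ) + 1) * (Z + 1)) * ((s.length : ℝ) + 1) * Z * (((M0 : ℝ) + 1) / m) =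
            1 / (2 * (D : ℝ)) * ((Z / (Z + 1)) * (((s.length : ℝ) + 1) / m)) := by
          field_simp
        rw [e]
        refine mul_le_of_le_one_right (by positivity) ?_
        have h5 : Z / (Z + 1) ≤ 1 := by rw [div_le_one (by positivity)]; linarith
        have h6 : ((s.length : ℝ) + 1) / m ≤ 1 := by rw [div_le_one hm0]; exact hmr
        exact mul_le_one₀ h5 (by positivity) h6
      have hBZ : 0 ≤ B * Z := mul_nonneg (by rw [hB]; positivity) hZ0
      calc B * Z * (cn m k0 * (((k0 : ℝ) + 1) / ((m : ℝ) + k0 + 1)))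
          = (B * Z * (((k0 : ℝ) + 1) / ((m : ℝ) + k0 + 1))) * cn m k0 := by ring
        _ ≤ (B * Z * (((M0 : ℝ) + 1) / m)) * cn m k0 :=
            mul_le_mul_of_nonneg_right (mul_le_mul_of_nonneg_left h3 hBZ) hcn.le
        _ ≤ 1 / (2 * (D : ℝ)) * cn m k0 := mul_le_mul_of_nonneg_right h4 hcn.le
    have h7 := h1.trans h2
    have h8 : σ * (g * cn m k0) - σ * ∑ u ∈ U, (c u : ℝ) * T u m ≤ 1 / (2 * (D : ℝ)) * cn m k0 := by
      have h9 : σ * (g * cn m k0) - σ * ∑ u ∈ U, (c u : ℝ) * T u m ≤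
          |σ * (∑ u ∈ U, (c u : ℝ) * T u m - g * cn m k0)| := by
        have := neg_abs_le (σ * (∑ u ∈ U, (c u : ℝ) * T u m - g * cn m k0))
        linarith
      rw [abs_mul, hσ1, one_mul] at h9
      exact h9.trans h7
    have h10 : 1 / (D : ℝ) * cn m k0 ≤ σ * (g * cn m k0) := by
      rw [← mul_assoc, hσ]
      exact mul_le_mul_of_nonneg_right hG hcn.le
    have h11 : 1 / (D : ℝ) = 1 / (2 * (D : ℝ)) + 1 / (2 * (D : ℝ)) := by field_simp; norm_num
    have h12 : cn m M1 ≤ cn m k0 := cn_antitone m (hk0.trans (le_max_left _ _))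
    have h13 := mul_le_mul_of_nonneg_left h12 (by positivity : (0 : ℝ) ≤ 1 / (2 * (D : ℝ)))
    rw [h11, add_mul] at h10
    linarith
  -- summation
  have hsum : HasSum (fun n : ℕ => H s n * (((n + 1 : ℕ) : ℝ) ^ a)⁻¹ * (σ * ∑ u ∈ U, (c u : ℝ) * T u (n + 1)))
      (σ * ∑ u ∈ U, (c u : ℝ) * val (u ++ a :: s)) := by
    have h1 : HasSum (fun n : ℕ => ∑ u ∈ U, (c u : ℝ) * (H s n * (((n + 1 : ℕ) : ℝ) ^ a)⁻¹ * T u (n + 1)))
        (∑ u ∈ U, (c u : ℝ) * val (u ++ a :: s)) :=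
      hasSum_sum fun u hu => (val_hasSum (hU u hu) (hadmu u hu)).mul_left _
    have h2 : (fun n : ℕ => H s n * (((n + 1 : ℕ) : ℝ) ^ a)⁻¹ * (σ * ∑ u ∈ U, (c u : ℝ) * T u (n + 1))) =
        fun n : ℕ => σ * ∑ u ∈ U, (c u : ℝ) * (H s n * (((n + 1 : ℕ) : ℝ) ^ a)⁻¹ * T u (n + 1)) := by
      funext n
      rw [mul_left_comm, Finset.mul_sum]
      congr 1
      exact Finset.sum_congr rfl fun u _ => by ring
    rw [h2]
    exact h1.mul_left σ
  have hsumM := (val_hasSum hadm1 hadmM).mul_left κ2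
  have hfin : κ2 * val ([M1 + 1] ++ a :: s) ≤ σ * ∑ u ∈ U, (c u : ℝ) * val (u ++ a :: s) := by
    refine hasSum_le (fun n => ?_) hsumM hsum
    rcases Nat.lt_or_ge n s.length with hn | hn
    · rw [H_zero_of_lt s n hn]
      simp
    · have h1 := hlow (n + 1) (by omega)
      have h2 := T_single M1 (le_max_right _ _) (n + 1)
      have hw : 0 ≤ H s n * (((n + 1 : ℕ) : ℝ) ^ a)⁻¹ := mul_nonneg (H_nonneg _ _) (by positivity)
      have h3 : κ2 * T [M1 + 1] (n + 1) ≤ σ * ∑ u ∈ U, (c u : ℝ) * T u (n + 1) := by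
        refine le_trans (mul_le_mul_of_nonneg_left h2 hκ20.le) (le_trans (le_of_eq ?_) h1)
        rw [hκ2, ← hV]
        field_simp
      calc κ2 * (H s n * (((n + 1 : ℕ) : ℝ) ^ a)⁻¹ * T [M1 + 1] (n + 1))
          = H s n * (((n + 1 : ℕ) : ℝ) ^ a)⁻¹ * (κ2 * T [M1 + 1] (n + 1)) := by ring
        _ ≤ _ := mul_le_mul_of_nonneg_left h3 hw
  have h14 : σ * ∑ u ∈ U, (c u : ℝ) * val (u ++ a :: s) ≤ |∑ u ∈ U, (c u : ℝ) * val (u ++ a :: s)| := by
    refine (le_abs_self _).trans (le_of_eq ?_)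
    rw [abs_mul, hσ1, one_mul]
  refine le_trans ?_ (hfin.trans h14)
  rw [List.singleton_append]
  refine mul_le_mul_of_nonneg_right (min_le_right _ _) ?_
  have := val_pos hadmM
  rw [List.singleton_append] at this
  exact this.le

end Pool.Agent.K7.H57.Suf
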