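import Mathlib
import Pool.Agent.K7.H57.Suf.Main
import Pool.Agent.Y760.PZ.Vec

/-!
# Words `v s` with `v` an arbitrary word in `x`, `y`, coefficients in the span of numbers with a measure
-/

set_option autoImplicit false

namespace Pool.Agent.K7.H57.Suf

open Filter Topology
open Pool.Agent.H447R2.MZ (H H_nil H_cons H_cons_zero H_cons_succ H_nonneg Adm val tendsto_H H_le_val)
open Pool.Agent.Q217.TT (indep_fin common_den H_nat)
open Pool.Agent.Y760.PZ (LM)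

/-- the word of the coefficients of `n ^ (-j) T_u(n)`, `x = (u, j)` -/
def Wx (x : List ℕ × ℕ) : List ℕ := List.replicate x.2 1 ++ dw x.1.reverse

lemma Wx_pos (x : List ℕ × ℕ) : ∀ a ∈ Wx x, 1 ≤ a := by
  intro a ha
  rcases List.mem_append.1 ha with h | h
  · rw [(List.mem_replicate.1 h).2]
  · exact dw_pos _ a h

lemma Wx_inj {x y : List ℕ × ℕ} (hx : Adm x.1) (hy : Adm y.1) (h : Wx x = Wx y) : x = y := by
  obtain ⟨h1, h2⟩ := rep_inj (dw_N1 _) (dw_N1 _) h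
  have h3 := dw_inj (RA_of_adm _ (by rwa [List.reverse_reverse])) (RA_of_adm _ (by rwa [List.reverse_reverse])) h2
  exact Prod.ext (List.reverse_injective h3) h1

/-- the function `n ^ (-j) T_u(n)` -/
noncomputable def Ex (x : List ℕ × ℕ) (m : ℕ) : ℝ := ((m : ℝ) ^ x.2)⁻¹ * T x.1 m

lemma Ex_nonneg {x : List ℕ × ℕ} (hx : Adm x.1) (m : ℕ) : 0 ≤ Ex x m :=
  mul_nonneg (by positivity) (T_nonneg hx m)

theorem Ex_hasSum {x : List ℕ × ℕ} (hx : Adm x.1) {m : ℕ} (hm : 1 ≤ m) :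
    HasSum (fun k => hR (Wx x) k * cn m k) (Ex x m) := by
  have h0 : Adm x.1.reverse.reverse := by rwa [List.reverse_reverse]
  have h1 := TE_T x.1.reverse h0 m
  rw [List.reverse_reverse, TE_eq _ (RA_of_adm _ h0)] at h1
  have h2 : ENNReal.ofReal (Ex x m) = ∑' k, hE (Wx x) k * cE m k := by
    rw [Wx, ← mul_inv_pow_hE hm, ← h1, iE_pow, Ex, ENNReal.ofReal_mul (by positivity)]
  have h3 : ∀ k, hE (Wx x) k * cE m k = ENNReal.ofReal (hR (Wx x) k * cn m k) := by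
    intro k
    unfold hE cE
    rw [← ENNReal.ofReal_mul (hR_nonneg _ _)]
  simp_rw [h3] at h2
  have h4 : ∑' k, ENNReal.ofReal (hR (Wx x) k * cn m k) ≠ ⊤ := by
    rw [← h2]
    exact ENNReal.ofReal_ne_top
  have h5 := ENNReal.hasSum_toReal h4
  have h6 : (∑' k, (ENNReal.ofReal (hR (Wx x) k * cn m k)).toReal) = Ex x m := by
    rw [← ENNReal.tsum_toReal_eq (fun k => ENNReal.ofReal_ne_top), ← h2,
      ENNReal.toReal_ofReal (Ex_nonneg hx m)]
  rw [h6] at h5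
  have h7 : (fun k => (ENNReal.ofReal (hR (Wx x) k * cn m k)).toReal) = fun k => hR (Wx x) k * cn m k :=
    funext fun k => ENNReal.toReal_ofReal (mul_nonneg (hR_nonneg _ _) (cn_pos _ _).le)
  rw [h7] at h5
  exact h5

/-- the word of the coefficients, with letters in `ℕ+` -/
def xP (x : List ℕ × ℕ) : List ℕ+ := (Wx x).map Nat.toPNat'

lemma nat_xP (x : List ℕ × ℕ) : Pool.Agent.Q217.TT.nat (xP x) = Wx x := nat_map _ (Wx_pos x)

lemma xP_inj {x y : List ℕ × ℕ} (hx : Adm x.1) (hy : Adm y.1) (h : xP x = xP y) : x = y := by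
  apply Wx_inj hx hy
  rw [← nat_xP, ← nat_xP, h]

/-- finitely many coefficients of the expansions suffice, and they have a common denominator -/
lemma first' (V : Finset (List ℕ × ℕ)) (hV : ∀ x ∈ V, Adm x.1) : ∃ M D : ℕ, 1 ≤ D ∧
    (∀ c : List ℕ × ℕ → ℤ, (∃ x ∈ V, c x ≠ 0) → ∃ k ≤ M, ∑ x ∈ V, (c x : ℝ) * hR (Wx x) k ≠ 0) ∧
    ∀ x ∈ V, ∀ k ≤ M, ∃ z : ℤ, (D : ℝ) * hR (Wx x) k = z := by
  classical
  have hinj : Set.InjOn xP V := fun x hx y hy h => xP_inj (hV x hx) (hV y hy) h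
  obtain ⟨M, hM⟩ := indep_fin (V.image xP)
  -- common denominator
  have hq : ∀ (w : List ℕ) (k : ℕ), (∀ a ∈ w, 1 ≤ a) → ∃ q : ℚ, hR w k = q := by
    intro w k hw
    rcases w with _ | ⟨b, w⟩ <;> rcases k with _ | k
    · exact ⟨1, by simp [hR]⟩
    · exact ⟨0, by simp [hR]⟩
    · exact ⟨0, by simp [hR]⟩
    · have h1 := H_nat (w.map Nat.toPNat') k
      rw [nat_map w (fun x hx => hw x (List.mem_cons_of_mem _ hx))] at h1
      refine ⟨(((k + 1 : ℕ) : ℚ) ^ b)⁻¹ * Pool.Agent.TH507.HS.hs (w.map Nat.toPNat') (k + 1), ?_⟩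
      rw [hR, h1]
      push_cast
      ring
  choose! q hq using fun (w : List ℕ) (k : ℕ) => hq w k
  refine ⟨M, ∏ x ∈ V, ∏ k ∈ Finset.range (M + 1), (q (Wx x) k).den,
    Nat.succ_le_of_lt (Finset.prod_pos fun u _ => Finset.prod_pos fun n _ => Rat.den_pos _), ?_, ?_⟩
  · intro c hne
    let c' : List ℕ+ → ℤ := fun w => c (Function.invFunOn xP V w)
    have hc' : ∀ u ∈ V, c' (xP u) = c u := by
      intro u hu
      have h1 : Function.invFunOn xP V (xP u) = u := by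
        have h2 : ∃ v ∈ (V : Set (List ℕ × ℕ)), xP v = xP u := ⟨u, hu, rfl⟩
        exact hinj (Function.invFunOn_mem h2) hu (Function.invFunOn_eq h2)
      simp only [c', h1]
    have hsum : ∀ n : ℕ, ∑ w ∈ V.image xP, (c' w : ℚ) * Pool.Agent.TH507.HS.hs w (n + 1) =
        ∑ u ∈ V, (c u : ℚ) * Pool.Agent.TH507.HS.hs (xP u) (n + 1) := by
      intro n
      rw [Finset.sum_image fun u hu v hv h => hinj hu hv h]
      exact Finset.sum_congr rfl fun u hu => by rw [hc' u hu]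
    by_contra hcon
    push Not at hcon
    obtain ⟨u, hu, hcu⟩ := hne
    apply hcu
    have h1 := hM (fun w => (c' w : ℚ)) (fun n hn => by
      rw [hsum]
      have h2 : ∑ u ∈ V, (c u : ℝ) * H (Wx u) n = 0 := by
        have h3 : ∑ u ∈ V, (c u : ℝ) * H (Wx u) n =
            ∑ k ∈ Finset.range (n + 1), ∑ x ∈ V, (c x : ℝ) * hR (Wx x) k := by
          rw [Finset.sum_comm]
          exact Finset.sum_congr rfl fun u _ => by rw [← Finset.mul_sum, sum_hR]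
        rw [h3]
        exact Finset.sum_eq_zero fun k hk => hcon k (by have := Finset.mem_range.1 hk; omega)
      have h4 : ((∑ u ∈ V, (c u : ℚ) * Pool.Agent.TH507.HS.hs (xP u) (n + 1) : ℚ) : ℝ) = 0 := by
        rw [← h2]
        push_cast
        exact Finset.sum_congr rfl fun u _ => by rw [← H_nat, nat_xP]
      exact_mod_cast h4) (xP u) (Finset.mem_image_of_mem _ hu)
    rw [hc' u hu] at h1
    exact_mod_cast h1
  · intro x hx k hk
    set D := ∏ x ∈ V, ∏ k ∈ Finset.range (M + 1), (q (Wx x) k).den with hD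
    have h2 : (q (Wx x) k).den ∣ D :=
      (Finset.dvd_prod_of_mem (fun k => (q (Wx x) k).den) (Finset.mem_range.2 (by omega : k < M + 1))).trans
        (Finset.dvd_prod_of_mem (fun x => ∏ k ∈ Finset.range (M + 1), (q (Wx x) k).den) hx)
    obtain ⟨e, he⟩ := h2
    refine ⟨e * (q (Wx x) k).num, ?_⟩
    rw [hq (Wx x) k (Wx_pos x), he]
    have h3 := Rat.mul_den_eq_num (q (Wx x) k)
    have h4 : ((q (Wx x) k : ℚ) : ℝ) * ((q (Wx x) k).den : ℝ) = ((q (Wx x) k).num : ℝ) := by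
      exact_mod_cast h3
    push_cast
    rw [← h4]
    ring

lemma cn_le {m : ℕ} (hm : 1 ≤ m) (k0 : ℕ) : ∀ k, k0 + 1 ≤ k →
    cn m k ≤ ((k0 : ℝ) + 2) * cn m (k0 + 1) * cn 1 k := by
  intro k hk
  induction k, hk using Nat.le_induction with
  | base =>
    rw [cn_one]
    push_cast
    have : (k0 : ℝ) + 1 + 1 ≠ 0 := by positivity
    refine le_of_eq ?_
    field_simp
    ring
  | succ k hk ih =>
    rw [cn_succ, cn_succ 1 k, ← mul_assoc]
    have hmr : (1 : ℝ) ≤ m := by exact_mod_cast hm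
    have h1 : ((k : ℝ) + 1) / ((m : ℝ) + k + 1) ≤ ((k : ℝ) + 1) / (((1 : ℕ) : ℝ) + k + 1) := by
      apply div_le_div_of_nonneg_left (by positivity) (by positivity)
      push_cast
      linarith
    refine mul_le_mul ih h1 (by positivity) ?_
    have := cn_pos m (k0 + 1)
    have := cn_pos 1 k
    positivity

/-- the tails of a combination with real coefficients -/
lemma tails' (V : Finset (List ℕ × ℕ)) (hV : ∀ x ∈ V, Adm x.1) (c : List ℕ × ℕ → ℝ) (k0 : ℕ) {B : ℝ}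
    (hB : ∀ x ∈ V, |c x| ≤ B) (h0 : ∀ k < k0, ∑ x ∈ V, c x * hR (Wx x) k = 0) {m : ℕ} (hm : 1 ≤ m) :
    |∑ x ∈ V, c x * Ex x m - (∑ x ∈ V, c x * hR (Wx x) k0) * cn m k0| ≤
      B * (∑ x ∈ V, val x.1) * (((k0 : ℝ) + 2) * cn m (k0 + 1)) := by
  have hs : HasSum (fun k => ∑ x ∈ V, c x * (hR (Wx x) k * cn m k)) (∑ x ∈ V, c x * Ex x m) :=
    hasSum_sum fun x hx => (Ex_hasSum (hV x hx) hm).mul_left _
  have hs1 := (hasSum_nat_add_iff' (k0 + 1)).2 hs
  have h1 : ∑ k ∈ Finset.range (k0 + 1), ∑ x ∈ V, c x * (hR (Wx x) k * cn m k) =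
      (∑ x ∈ V, c x * hR (Wx x) k0) * cn m k0 := by
    rw [Finset.sum_range_succ, Finset.sum_eq_zero fun k hk => ?_, zero_add, Finset.sum_mul]
    · exact Finset.sum_congr rfl fun u _ => by ring
    · have h2 := h0 k (Finset.mem_range.1 hk)
      have h3 : ∑ x ∈ V, c x * (hR (Wx x) k * cn m k) = (∑ x ∈ V, c x * hR (Wx x) k) * cn m k := by
        rw [Finset.sum_mul]
        exact Finset.sum_congr rfl fun u _ => by ring
      rw [h3, h2, zero_mul]
  rw [h1] at hs1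
  -- the bounding series
  have hb : HasSum (fun k => ∑ x ∈ V, B * (hR (Wx x) k * cn 1 k)) (∑ x ∈ V, B * Ex x 1) :=
    hasSum_sum fun x hx => (Ex_hasSum (hV x hx) le_rfl).mul_left B
  have hb1 := (hasSum_nat_add_iff' (k0 + 1)).2 hb
  have hb2 := hb1.mul_right (((k0 : ℝ) + 2) * cn m (k0 + 1))
  have hK : 0 ≤ ((k0 : ℝ) + 2) * cn m (k0 + 1) := mul_nonneg (by positivity) (cn_pos _ _).le
  have hle : ∀ k, |∑ x ∈ V, c x * (hR (Wx x) (k + (k0 + 1)) * cn m (k + (k0 + 1)))| ≤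
      (∑ x ∈ V, B * (hR (Wx x) (k + (k0 + 1)) * cn 1 (k + (k0 + 1)))) * (((k0 : ℝ) + 2) * cn m (k0 + 1)) := by
    intro k
    refine (Finset.abs_sum_le_sum_abs _ _).trans ?_
    rw [Finset.sum_mul]
    refine Finset.sum_le_sum fun x hx => ?_
    have h4 := hR_nonneg (Wx x) (k + (k0 + 1))
    have h5 := (cn_pos m (k + (k0 + 1))).le
    have h6 := cn_le hm k0 (k + (k0 + 1)) (by omega)
    have hB0 : 0 ≤ B := (abs_nonneg _).trans (hB x hx)
    rw [abs_mul, abs_of_nonneg (mul_nonneg h4 h5)]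
    calc |c x| * (hR (Wx x) (k + (k0 + 1)) * cn m (k + (k0 + 1)))
        ≤ B * (hR (Wx x) (k + (k0 + 1)) * (((k0 : ℝ) + 2) * cn m (k0 + 1) * cn 1 (k + (k0 + 1)))) :=
          mul_le_mul (hB x hx) (mul_le_mul_of_nonneg_left h6 h4) (mul_nonneg h4 h5) hB0
      _ = _ := by ring
  rw [← hs1.tsum_eq]
  have h7 : Summable fun k => |∑ x ∈ V, c x * (hR (Wx x) (k + (k0 + 1)) * cn m (k + (k0 + 1)))| :=
    Summable.of_nonneg_of_le (fun _ => abs_nonneg _) hle hb2.summable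
  have h8 : |∑' k, ∑ x ∈ V, c x * (hR (Wx x) (k + (k0 + 1)) * cn m (k + (k0 + 1)))| ≤
      ∑' k, |∑ x ∈ V, c x * (hR (Wx x) (k + (k0 + 1)) * cn m (k + (k0 + 1)))| := by
    have := norm_tsum_le_tsum_norm (f := fun k => ∑ x ∈ V, c x * (hR (Wx x) (k + (k0 + 1)) *
      cn m (k + (k0 + 1)))) (by simpa [Real.norm_eq_abs] using h7)
    simpa [Real.norm_eq_abs] using this
  refine h8.trans ((h7.tsum_le_tsum hle hb2.summable).trans ?_)
  rw [hb2.tsum_eq]
  refine mul_le_mul_of_nonneg_right ?_ hK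
  have h9 : 0 ≤ ∑ k ∈ Finset.range (k0 + 1), ∑ x ∈ V, B * (hR (Wx x) k * cn 1 k) := by
    refine Finset.sum_nonneg fun k _ => Finset.sum_nonneg fun x hx => ?_
    exact mul_nonneg ((abs_nonneg _).trans (hB x hx)) (mul_nonneg (hR_nonneg _ _) (cn_pos _ _).le)
  have h10 : ∑ x ∈ V, B * Ex x 1 ≤ B * ∑ x ∈ V, val x.1 := by
    rw [Finset.mul_sum]
    refine Finset.sum_le_sum fun x hx => mul_le_mul_of_nonneg_left ?_ ((abs_nonneg _).trans (hB x hx))
    rw [Ex, Nat.cast_one, one_pow, inv_one, one_mul, ← T_zero (hV x hx)]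
    refine le_of_tendsto_of_tendsto (tendsto_T (hV x hx) 1) (tendsto_T (hV x hx) 0) ?_
    filter_upwards [eventually_ge_atTop 1] with N hN
    exact Pool.Agent.Q217.TT.ep_anti x.1 (by omega) hN
  linarith

/-- the value of the word `u x^j s` -/
theorem val_hasSum' {x : List ℕ × ℕ} (hx : Adm x.1) {a : ℕ} {s : List ℕ} (hus : Adm (x.1 ++ (a + x.2) :: s)) :
    HasSum (fun n : ℕ => H s n * (((n + 1 : ℕ) : ℝ) ^ a)⁻¹ * Ex x (n + 1)) (val (x.1 ++ (a + x.2) :: s)) := by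
  have h := val_hasSum hx hus
  have h2 : (fun n : ℕ => H s n * (((n + 1 : ℕ) : ℝ) ^ a)⁻¹ * Ex x (n + 1)) =
      fun n : ℕ => H s n * (((n + 1 : ℕ) : ℝ) ^ (a + x.2))⁻¹ * T x.1 (n + 1) := by
    funext n
    rw [Ex, pow_add, mul_inv]
    ring
  rw [h2]
  exact h

theorem main_gen {ι : Type} [Fintype ι] (θ : ι → ℝ) (hθ : LM θ) (V : Finset (List ℕ × ℕ))
    (hV : ∀ x ∈ V, Adm x.1) : ∃ κ γ : ℝ, 0 < κ ∧ 0 < γ ∧ ∃ M : ℕ, 2 ≤ M ∧
    ∀ (a : ℕ) (s : List ℕ), 1 ≤ a → (∀ t ∈ s, 1 ≤ t) → (∀ x ∈ V, x.1 = [] → 2 ≤ a + x.2) →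
      ∀ c : List ℕ × ℕ → ι → ℤ, (∀ x ∈ V, ∀ i, |(c x i : ℝ)| ≤ κ * ((s.length : ℝ) + 1) ^ γ) →
      (∃ x ∈ V, ∃ i, c x i ≠ 0) →
      κ * ((s.length : ℝ) + 1)⁻¹ * val (M :: a :: s) ≤
        |∑ x ∈ V, (∑ i, (c x i : ℝ) * θ i) * val (x.1 ++ (a + x.2) :: s)| := by
  classical
  obtain ⟨M0, D, hD1, hfirst, hden⟩ := first' V hV
  obtain ⟨κ0, c0, hκ0, hc0, hmeas⟩ := hθ
  set M1 := max M0 1 with hM1
  have hDr : (1 : ℝ) ≤ D := by exact_mod_cast hD1
  have hD0 : (0 : ℝ) < D := by linarith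
  set Z : ℝ := ∑ x ∈ V, val x.1 with hZ
  have hZ0 : 0 ≤ Z := Finset.sum_nonneg fun x hx => (val_pos (hV x hx)).le
  set Θ : ℝ := ∑ i, |θ i| with hΘ
  have hΘ0 : 0 ≤ Θ := Finset.sum_nonneg fun i _ => abs_nonneg _
  set R : ℝ := ∑ x ∈ V, H (Wx x) M0 with hR0
  have hRn : 0 ≤ R := Finset.sum_nonneg fun x _ => H_nonneg _ _
  set A1 : ℝ := D * R + 1 with hA1
  have hA10 : 1 ≤ A1 := by
    rw [hA1]
    have := mul_nonneg hD0.le hRn
    linarith
  set γ : ℝ := 1 / (1 + κ0) with hγ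
  have hγ0 : 0 < γ := by rw [hγ]; positivity
  have hγκ : γ * (1 + κ0) = 1 := by rw [hγ]; field_simp
  have hγκ1 : γ * κ0 ≤ 1 := by nlinarith
  set g0 : ℝ := c0 / (D * A1 ^ κ0) with hg0
  have hA1κ : 0 < A1 ^ κ0 := Real.rpow_pos_of_pos (by linarith) _
  have hg00 : 0 < g0 := by rw [hg0]; positivity
  have hadm1 : Adm [M1 + 1] := ⟨by simp, fun x t h => by
    rw [← (List.cons.inj h).1]
    omega⟩
  set V1 : ℝ := val [M1 + 1] with hV1
  have hV10 : 0 < V1 := val_pos hadm1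
  set κ1 : ℝ := g0 / (2 * (Θ * Z * ((M0 : ℝ) + 1) * ((M0 : ℝ) + 2) + 1)) with hκ1
  have hκ10 : 0 < κ1 := by rw [hκ1]; positivity
  set κ2 : ℝ := g0 / (2 * V1) with hκ2
  have hκ20 : 0 < κ2 := by rw [hκ2]; positivity
  set κ : ℝ := min 1 (min κ1 κ2) with hκ
  have hκp : 0 < κ := lt_min one_pos (lt_min hκ10 hκ20)
  have hκle1 : κ ≤ 1 := min_le_left _ _
  have hκle2 : κ ≤ κ1 := (min_le_right _ _).trans (min_le_left _ _)
  have hκle3 : κ ≤ κ2 := (min_le_right _ _).trans (min_le_right _ _)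
  refine ⟨κ, γ, hκp, hγ0, M1 + 1, by omega, fun a s ha hs hnil c hc hne => ?_⟩
  -- admissibility
  have hadmu : ∀ x ∈ V, Adm (x.1 ++ (a + x.2) :: s) := by
    intro x hx
    refine ⟨fun y hy => ?_, fun y t h => ?_⟩
    · rcases List.mem_append.1 hy with h | h
      · exact (hV x hx).1 y h
      · rcases List.mem_cons.1 h with rfl | h
        · omega
        · exact hs y h
    · have h0 := hnil x hx
      have h1 := hV x hx
      revert h h0 h1
      generalize x.1 = u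
      intro h h0 h1
      cases u with
      | nil =>
        rw [List.nil_append] at h
        rw [← (List.cons.inj h).1]
        exact h0 rfl
      | cons b p =>
        rw [List.cons_append] at h
        rw [← (List.cons.inj h).1]
        exact h1.2 b p rfl
  have hadmM : Adm ([M1 + 1] ++ a :: s) := by
    refine ⟨fun x hx => ?_, fun x t h => ?_⟩
    · rcases List.mem_append.1 hx with h | h
      · exact hadm1.1 x h
      · rcases List.mem_cons.1 h with rfl | h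
        · exact ha
        · exact hs x h
    · rw [List.cons_append] at h
      rw [← (List.cons.inj h).1]
      omega
  set L : ℝ := (s.length : ℝ) + 1 with hL
  have hL1 : 1 ≤ L := by rw [hL]; linarith [Nat.cast_nonneg (α := ℝ) s.length]
  have hL0 : 0 < L := by linarith
  have hLγ1 : 1 ≤ L ^ γ := Real.one_le_rpow hL1 hγ0.le
  -- the vectors of the coefficients
  have hex : ∃ k, k ≤ M0 ∧ ∃ i, ∑ x ∈ V, (c x i : ℝ) * hR (Wx x) k ≠ 0 := by
    obtain ⟨x, hx, i, hi⟩ := hne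
    obtain ⟨k, hk, h⟩ := hfirst (fun x => c x i) ⟨x, hx, hi⟩
    exact ⟨k, hk, i, h⟩
  have hk0 := Nat.find_spec hex
  have hmin : ∀ k < Nat.find hex, ∀ i, ∑ x ∈ V, (c x i : ℝ) * hR (Wx x) k = 0 := by
    intro k hk i
    have h1 := Nat.find_min hex hk
    by_contra h2
    exact h1 ⟨hk.le.trans hk0.1, i, h2⟩
  set k0 := Nat.find hex with hk0def
  have hswap : ∀ k, ∑ x ∈ V, (∑ i, (c x i : ℝ) * θ i) * hR (Wx x) k =
      ∑ i, (∑ x ∈ V, (c x i : ℝ) * hR (Wx x) k) * θ i := by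
    intro k
    simp_rw [Finset.sum_mul]
    rw [Finset.sum_comm]
    exact Finset.sum_congr rfl fun i _ => Finset.sum_congr rfl fun x _ => by ring
  have hG0 : ∀ k < k0, ∑ x ∈ V, (∑ i, (c x i : ℝ) * θ i) * hR (Wx x) k = 0 := by
    intro k hk
    rw [hswap]
    exact Finset.sum_eq_zero fun i _ => by rw [hmin k hk i, zero_mul]
  set g : ℝ := ∑ x ∈ V, (∑ i, (c x i : ℝ) * θ i) * hR (Wx x) k0 with hg
  -- integrality
  have hz : ∀ i, ∃ z : ℤ, (D : ℝ) * ∑ x ∈ V, (c x i : ℝ) * hR (Wx x) k0 = z := by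
    intro i
    have h1 : ∀ x ∈ V, ∃ z : ℤ, (D : ℝ) * hR (Wx x) k0 = z := fun x hx => hden x hx k0 hk0.1
    choose! z hz using h1
    refine ⟨∑ x ∈ V, c x i * z x, ?_⟩
    rw [Finset.mul_sum]
    push_cast
    refine Finset.sum_congr rfl fun x hx => ?_
    rw [← hz x hx]
    ring
  choose q hq using hz
  have hq0 : q ≠ 0 := by
    obtain ⟨i, hi⟩ := hk0.2
    intro h
    have h1 := hq i
    rw [h, Pi.zero_apply, Int.cast_zero] at h1
    rcases mul_eq_zero.1 h1 with h2 | h2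
    · exact hD0.ne' h2
    · exact hi h2
  have hqle : ∀ i, |(q i : ℝ)| ≤ A1 * L ^ γ := by
    intro i
    rw [← hq i, abs_mul, abs_of_pos hD0]
    have h1 : |∑ x ∈ V, (c x i : ℝ) * hR (Wx x) k0| ≤ L ^ γ * R := by
      refine (Finset.abs_sum_le_sum_abs _ _).trans ?_
      rw [hR0, Finset.mul_sum]
      refine Finset.sum_le_sum fun x hx => ?_
      rw [abs_mul, abs_of_nonneg (hR_nonneg _ _)]
      have h2 : hR (Wx x) k0 ≤ H (Wx x) M0 := by
        rw [← sum_hR]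
        exact Finset.single_le_sum (f := fun k => hR (Wx x) k) (fun k _ => hR_nonneg _ _)
          (Finset.mem_range.2 (by have := hk0.1; omega))
      have h3 : |(c x i : ℝ)| ≤ L ^ γ := by
        refine (hc x hx i).trans ?_
        exact mul_le_of_le_one_left (by positivity) hκle1
      exact mul_le_mul h3 h2 (hR_nonneg _ _) (by positivity)
    calc (D : ℝ) * |∑ x ∈ V, (c x i : ℝ) * hR (Wx x) k0| ≤ D * (L ^ γ * R) :=
          mul_le_mul_of_nonneg_left h1 hD0.le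
      _ = (D * R) * L ^ γ := by ring
      _ ≤ A1 * L ^ γ := mul_le_mul_of_nonneg_right (by rw [hA1]; linarith) (by positivity)
  have hglow : g0 * (L ^ (γ * κ0))⁻¹ ≤ |g| := by
    have h1 := hmeas q hq0 (A1 * L ^ γ) (by nlinarith) hqle
    have h2 : ∑ i, (q i : ℝ) * θ i = D * g := by
      rw [hg, hswap, Finset.mul_sum]
      refine Finset.sum_congr rfl fun i _ => ?_
      rw [← hq i]
      ring
    rw [h2, abs_mul, abs_of_pos hD0, Real.mul_rpow (by linarith) (by positivity), ← Real.rpow_mul hL0.le] at h1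
    have hLp : 0 < L ^ (γ * κ0) := Real.rpow_pos_of_pos hL0 _
    rw [hg0, ← div_eq_mul_inv, div_div, div_le_iff₀ (by positivity)]
    calc c0 ≤ A1 ^ κ0 * L ^ (γ * κ0) * (D * |g|) := h1
      _ = |g| * (D * A1 ^ κ0 * L ^ (γ * κ0)) := by ring
  -- the sign
  obtain ⟨σ, hσ1, hσ⟩ : ∃ σ : ℝ, |σ| = 1 ∧ σ * g = |g| := by
    rcases le_total 0 g with h | h
    · exact ⟨1, abs_one, by rw [one_mul, abs_of_nonneg h]⟩
    · exact ⟨-1, by rw [abs_neg, abs_one], by rw [abs_of_nonpos h]; ring⟩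
  set B : ℝ := κ * L ^ γ * Θ with hB
  have hcB : ∀ x ∈ V, |∑ i, (c x i : ℝ) * θ i| ≤ B := by
    intro x hx
    refine (Finset.abs_sum_le_sum_abs _ _).trans ?_
    rw [hB, hΘ, Finset.mul_sum]
    refine Finset.sum_le_sum fun i _ => ?_
    rw [abs_mul]
    exact mul_le_mul_of_nonneg_right (hc x hx i) (abs_nonneg _)
  have hlow : ∀ m : ℕ, s.length + 1 ≤ m → g0 / 2 * L⁻¹ * cn m M1 ≤
      σ * ∑ x ∈ V, (∑ i, (c x i : ℝ) * θ i) * Ex x m := by
    intro m hm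
    have h1 := tails' V hV (fun x => ∑ i, (c x i : ℝ) * θ i) k0 hcB hG0 (by omega : 1 ≤ m)
    have hk0r : (k0 : ℝ) ≤ M0 := by exact_mod_cast hk0.1
    have hk00 : (0 : ℝ) ≤ k0 := Nat.cast_nonneg _
    have hmr : L ≤ m := by rw [hL]; exact_mod_cast hm
    have hm0 : (0 : ℝ) < m := lt_of_lt_of_le hL0 hmr
    have hcn := cn_pos m k0
    have hLp : 0 < L ^ (γ * κ0) := Real.rpow_pos_of_pos hL0 _
    have h2 : B * Z * (((k0 : ℝ) + 2) * cn m (k0 + 1)) ≤ g0 / 2 * (L ^ (γ * κ0))⁻¹ * cn m k0 := by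
      rw [cn_succ]
      have h3 : ((k0 : ℝ) + 1) / ((m : ℝ) + k0 + 1) ≤ ((M0 : ℝ) + 1) / L := by
        apply div_le_div₀ (by positivity) (by linarith) hL0
        linarith
      have hBZ : 0 ≤ B * Z := mul_nonneg (by rw [hB]; positivity) hZ0
      have h4 : B * Z * (((k0 : ℝ) + 2) * (((M0 : ℝ) + 1) / L)) ≤ g0 / 2 * (L ^ (γ * κ0))⁻¹ := by
        have e1 : L ^ γ / L = (L ^ (γ * κ0))⁻¹ := by
          rw [← Real.rpow_neg hL0.le, ← Real.rpow_sub_one hL0.ne']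
          congr 1
          linarith
        have h5 : B * Z * (((k0 : ℝ) + 2) * (((M0 : ℝ) + 1) / L)) ≤
            κ1 * (Θ * Z * ((M0 : ℝ) + 1) * ((M0 : ℝ) + 2) + 1) * (L ^ γ / L) := by
          have h6 : B * Z * (((k0 : ℝ) + 2) * (((M0 : ℝ) + 1) / L)) =
              κ * (Θ * Z * ((M0 : ℝ) + 1) * ((k0 : ℝ) + 2)) * (L ^ γ / L) := by
            rw [hB]
            field_simp
          rw [h6]
          refine mul_le_mul_of_nonneg_right ?_ (by positivity)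
          refine mul_le_mul hκle2 ?_ (by positivity) hκ10.le
          have h7 : Θ * Z * ((M0 : ℝ) + 1) * ((k0 : ℝ) + 2) ≤ Θ * Z * ((M0 : ℝ) + 1) * ((M0 : ℝ) + 2) :=
            mul_le_mul_of_nonneg_left (by linarith) (by positivity)
          linarith
        have h8 : κ1 * (Θ * Z * ((M0 : ℝ) + 1) * ((M0 : ℝ) + 2) + 1) = g0 / 2 := by
          rw [hκ1]
          have : Θ * Z * ((M0 : ℝ) + 1) * ((M0 : ℝ) + 2) + 1 ≠ 0 := by positivity
          field_simp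
        rw [h8, e1] at h5
        exact h5
      calc B * Z * (((k0 : ℝ) + 2) * (cn m k0 * (((k0 : ℝ) + 1) / ((m : ℝ) + k0 + 1))))
          = (B * Z * (((k0 : ℝ) + 2) * (((k0 : ℝ) + 1) / ((m : ℝ) + k0 + 1)))) * cn m k0 := by ring
        _ ≤ (B * Z * (((k0 : ℝ) + 2) * (((M0 : ℝ) + 1) / L))) * cn m k0 := by
            refine mul_le_mul_of_nonneg_right (mul_le_mul_of_nonneg_left ?_ hBZ) hcn.le
            exact mul_le_mul_of_nonneg_left h3 (by positivity)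
        _ ≤ g0 / 2 * (L ^ (γ * κ0))⁻¹ * cn m k0 := mul_le_mul_of_nonneg_right h4 hcn.le
    have h7 := h1.trans h2
    have h9 : σ * (g * cn m k0) - σ * ∑ x ∈ V, (∑ i, (c x i : ℝ) * θ i) * Ex x m ≤
        |σ * (∑ x ∈ V, (∑ i, (c x i : ℝ) * θ i) * Ex x m - g * cn m k0)| := by
      have := neg_abs_le (σ * (∑ x ∈ V, (∑ i, (c x i : ℝ) * θ i) * Ex x m - g * cn m k0))
      linarith
    rw [abs_mul, hσ1, one_mul] at h9
    have h8 := h9.trans h7
    have h10 : g0 * (L ^ (γ * κ0))⁻¹ * cn m k0 ≤ σ * (g * cn m k0) := by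
      rw [← mul_assoc, hσ]
      exact mul_le_mul_of_nonneg_right hglow hcn.le
    have h11 : g0 / 2 * (L ^ (γ * κ0))⁻¹ * cn m k0 ≤ σ * ∑ x ∈ V, (∑ i, (c x i : ℝ) * θ i) * Ex x m := by
      have e : g0 * (L ^ (γ * κ0))⁻¹ * cn m k0 = g0 / 2 * (L ^ (γ * κ0))⁻¹ * cn m k0 +
        g0 / 2 * (L ^ (γ * κ0))⁻¹ * cn m k0 := by ring
      linarith
    refine le_trans ?_ h11
    have h12 : cn m M1 ≤ cn m k0 := cn_antitone m (hk0.1.trans (le_max_left _ _))
    have h13 : L⁻¹ ≤ (L ^ (γ * κ0))⁻¹ := by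
      apply inv_anti₀ hLp
      calc L ^ (γ * κ0) ≤ L ^ (1 : ℝ) := Real.rpow_le_rpow_of_exponent_le hL1 hγκ1
        _ = L := Real.rpow_one L
    exact mul_le_mul (mul_le_mul_of_nonneg_left h13 (by positivity)) h12 (cn_pos _ _).le (by positivity)
  -- summation
  have hsum : HasSum (fun n : ℕ => H s n * (((n + 1 : ℕ) : ℝ) ^ a)⁻¹ *
      (σ * ∑ x ∈ V, (∑ i, (c x i : ℝ) * θ i) * Ex x (n + 1)))
      (σ * ∑ x ∈ V, (∑ i, (c x i : ℝ) * θ i) * val (x.1 ++ (a + x.2) :: s)) := by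
    have h1 : HasSum (fun n : ℕ => ∑ x ∈ V, (∑ i, (c x i : ℝ) * θ i) *
        (H s n * (((n + 1 : ℕ) : ℝ) ^ a)⁻¹ * Ex x (n + 1)))
        (∑ x ∈ V, (∑ i, (c x i : ℝ) * θ i) * val (x.1 ++ (a + x.2) :: s)) :=
      hasSum_sum fun x hx => (val_hasSum' (hV x hx) (hadmu x hx)).mul_left _
    have h2 : (fun n : ℕ => H s n * (((n + 1 : ℕ) : ℝ) ^ a)⁻¹ *
        (σ * ∑ x ∈ V, (∑ i, (c x i : ℝ) * θ i) * Ex x (n + 1))) =
        fun n : ℕ => σ * ∑ x ∈ V, (∑ i, (c x i : ℝ) * θ i) *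
          (H s n * (((n + 1 : ℕ) : ℝ) ^ a)⁻¹ * Ex x (n + 1)) := by
      funext n
      rw [mul_left_comm, Finset.mul_sum]
      congr 1
      exact Finset.sum_congr rfl fun u _ => by ring
    rw [h2]
    exact h1.mul_left σ
  have hsumM := (val_hasSum hadm1 hadmM).mul_left (κ2 * L⁻¹)
  have hfin : κ2 * L⁻¹ * val ([M1 + 1] ++ a :: s) ≤
      σ * ∑ x ∈ V, (∑ i, (c x i : ℝ) * θ i) * val (x.1 ++ (a + x.2) :: s) := by
    refine hasSum_le (fun n => ?_) hsumM hsum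
    rcases Nat.lt_or_ge n s.length with hn | hn
    · rw [H_zero_of_lt s n hn]
      simp
    · have h1 := hlow (n + 1) (by omega)
      have h2 := T_single M1 (le_max_right _ _) (n + 1)
      have hw : 0 ≤ H s n * (((n + 1 : ℕ) : ℝ) ^ a)⁻¹ := mul_nonneg (H_nonneg _ _) (by positivity)
      have h3 : κ2 * L⁻¹ * T [M1 + 1] (n + 1) ≤
          σ * ∑ x ∈ V, (∑ i, (c x i : ℝ) * θ i) * Ex x (n + 1) := by
        refine le_trans (mul_le_mul_of_nonneg_left h2 (by positivity)) (le_trans (le_of_eq ?_) h1)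
        rw [hκ2, ← hV1]
        field_simp
      calc κ2 * L⁻¹ * (H s n * (((n + 1 : ℕ) : ℝ) ^ a)⁻¹ * T [M1 + 1] (n + 1))
          = H s n * (((n + 1 : ℕ) : ℝ) ^ a)⁻¹ * (κ2 * L⁻¹ * T [M1 + 1] (n + 1)) := by ring
        _ ≤ _ := mul_le_mul_of_nonneg_left h3 hw
  have h14 : σ * ∑ x ∈ V, (∑ i, (c x i : ℝ) * θ i) * val (x.1 ++ (a + x.2) :: s) ≤
      |∑ x ∈ V, (∑ i, (c x i : ℝ) * θ i) * val (x.1 ++ (a + x.2) :: s)| := by
    refine (le_abs_self _).trans (le_of_eq ?_)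
    rw [abs_mul, hσ1, one_mul]
  refine le_trans ?_ (hfin.trans h14)
  rw [List.singleton_append]
  have hvp := val_pos hadmM
  rw [List.singleton_append] at hvp
  exact mul_le_mul_of_nonneg_right (mul_le_mul_of_nonneg_right hκle3 (by positivity)) hvp.le

end Pool.Agent.K7.H57.Suf
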