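import Mathlib
import Pool.Agent.K7.H57.Suf.Tail

/-!
# `ζ(2, ..., 2)` is a rational multiple of a power of `π ^ 2` (Newton's identities)
-/

set_option autoImplicit false

namespace Pool.Agent.K7.H57.Suf

open Filter Topology
open Pool.Agent.H447R2.MZ (H H_nil H_cons H_cons_zero H_cons_succ H_nonneg Adm val tendsto_H H_le_val)

/-- `e_k` of the numbers `1 / n²` -/
noncomputable def eS (k N : ℕ) : ℝ := H (List.replicate k 2) N

/-- power sums -/
noncomputable def pS (i N : ℕ) : ℝ := H [2 * i] N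

lemma eS_zero (N : ℕ) : eS 0 N = 1 := by rw [eS, List.replicate_zero, H_nil]

lemma eS_succ (k N : ℕ) : eS (k + 1) (N + 1) = eS (k + 1) N + (((N + 1 : ℕ) : ℝ) ^ 2)⁻¹ * eS k N := by
  rw [eS, eS, eS, List.replicate_succ, H_cons_succ]

lemma pS_succ (i N : ℕ) : pS i (N + 1) = pS i N + ((((N + 1 : ℕ) : ℝ) ^ 2)⁻¹) ^ i := by
  rw [pS, pS, H_cons_succ, H_nil, mul_one, pow_mul, inv_pow]

lemma newton_id (k N : ℕ) : (k : ℝ) * eS k N =
    ∑ i ∈ Finset.range k, (-1) ^ i * eS (k - (i + 1)) N * pS (i + 1) N := by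
  induction N generalizing k with
  | zero =>
    cases k with
    | zero => simp
    | succ k =>
      have h1 : ∀ i, pS (i + 1) 0 = 0 := fun i => by rw [pS, H_cons_zero]
      rw [Finset.sum_eq_zero fun i _ => by rw [h1, mul_zero], eS, List.replicate_succ, H_cons_zero, mul_zero]
  | succ N ih =>
    cases k with
    | zero => simp
    | succ k =>
      set x : ℝ := (((N + 1 : ℕ) : ℝ) ^ 2)⁻¹ with hx
      have ih1 := ih (k + 1)
      have ih2 := ih k
      -- all but the last term
      rw [Finset.sum_range_succ] at ih1 ⊢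
      rw [Nat.sub_self, eS_zero] at ih1 ⊢
      rw [eS_succ, pS_succ, ← hx]
      have h1 : ∀ i ∈ Finset.range k, (-1 : ℝ) ^ i * eS (k + 1 - (i + 1)) (N + 1) * pS (i + 1) (N + 1) =
          (-1) ^ i * eS (k + 1 - (i + 1)) N * pS (i + 1) N + x * ((-1) ^ i * eS (k - (i + 1)) N * pS (i + 1) N) +
            ((-1) ^ i * x ^ (i + 1) * eS (k - i) N - (-1) ^ (i + 1) * x ^ (i + 2) * eS (k - (i + 1)) N) := by
        intro i hi
        have hik := Finset.mem_range.1 hi
        rw [show k + 1 - (i + 1) = (k - (i + 1)) + 1 by omega, eS_succ, pS_succ, ← hx,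
          show k - i = (k - (i + 1)) + 1 by omega]
        ring
      rw [Finset.sum_congr rfl h1, Finset.sum_add_distrib, Finset.sum_add_distrib, ← Finset.mul_sum, ← ih2]
      have h2 : ∑ i ∈ Finset.range k, ((-1 : ℝ) ^ i * x ^ (i + 1) * eS (k - i) N -
          (-1) ^ (i + 1) * x ^ (i + 2) * eS (k - (i + 1)) N) =
          x * eS k N - (-1) ^ k * x ^ (k + 1) * eS 0 N := by
        have h3 := Finset.sum_range_sub' (fun i => (-1 : ℝ) ^ i * x ^ (i + 1) * eS (k - i) N) k
        rw [h3]
        simp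
      rw [h2, eS_zero]
      push_cast at ih1 ⊢
      linear_combination ih1

lemma adm_rep2 (k : ℕ) : Adm (List.replicate k 2) := by
  refine ⟨fun x hx => ?_, fun x t h => ?_⟩
  · rw [(List.mem_replicate.1 hx).2]; norm_num
  · have : x ∈ List.replicate k 2 := by rw [h]; exact List.mem_cons_self
    rw [(List.mem_replicate.1 this).2]

lemma adm_even {i : ℕ} (hi : 1 ≤ i) : Adm [2 * i] := by
  refine ⟨fun x hx => ?_, fun x t h => ?_⟩
  · rw [List.mem_singleton.1 hx]; omega
  · rw [← (List.cons.inj h).1]; omega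

lemma val_even {i : ℕ} (hi : 1 ≤ i) : ∃ q : ℚ, val [2 * i] = q * Real.pi ^ (2 * i) := by
  have h1 := hasSum_zeta_nat (k := i) (by omega)
  refine ⟨(-1) ^ (i + 1) * 2 ^ (2 * i - 1) * bernoulli (2 * i) / (2 * i).factorial, ?_⟩
  have h2 : HasSum (fun n : ℕ => 1 / ((n + 1 : ℕ) : ℝ) ^ (2 * i))
      ((-1) ^ (i + 1) * 2 ^ (2 * i - 1) * Real.pi ^ (2 * i) * bernoulli (2 * i) / (2 * i).factorial) := by
    have h3 := (hasSum_nat_add_iff' 1).2 h1
    simpa [show 2 * i ≠ 0 by omega] using h3
  have h3 := h2.tendsto_sum_nat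
  have h4 : (fun n => ∑ j ∈ Finset.range n, 1 / ((j + 1 : ℕ) : ℝ) ^ (2 * i)) = H [2 * i] := by
    funext n
    rw [H_cons]
    exact Finset.sum_congr rfl fun j _ => by rw [H_nil, mul_one, one_div]
  rw [h4] at h3
  rw [tendsto_nhds_unique (tendsto_H _ (adm_even hi)) h3]
  push_cast
  ring

theorem val_two (k : ℕ) : ∃ r : ℚ, r ≠ 0 ∧ val (List.replicate k 2) = r * Real.pi ^ (2 * k) := by
  induction k using Nat.strong_induction_on with
  | _ k ih =>
    have hpos : 0 < val (List.replicate k 2) := val_pos (adm_rep2 k)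
    suffices h : ∃ r : ℚ, val (List.replicate k 2) = r * Real.pi ^ (2 * k) by
      obtain ⟨r, hr⟩ := h
      refine ⟨r, ?_, hr⟩
      rintro rfl
      rw [hr, Rat.cast_zero, zero_mul] at hpos
      exact lt_irrefl _ hpos
    rcases Nat.eq_zero_or_pos k with rfl | hk
    · refine ⟨1, ?_⟩
      have h1 := tendsto_nhds_unique (tendsto_H _ (adm_rep2 0)) (f := H (List.replicate 0 2)) (a := val (List.replicate 0 2)) (b := 1)
        ((tendsto_const_nhds (x := (1 : ℝ))).congr fun N => by rw [List.replicate_zero, H_nil])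
      rw [h1]
      simp
    · have h1 : Tendsto (fun N => (k : ℝ) * eS k N) atTop (𝓝 (k * val (List.replicate k 2))) :=
        (tendsto_H _ (adm_rep2 k)).const_mul _
      have h2 : Tendsto (fun N => ∑ i ∈ Finset.range k, (-1 : ℝ) ^ i * eS (k - (i + 1)) N * pS (i + 1) N) atTop
          (𝓝 (∑ i ∈ Finset.range k, (-1 : ℝ) ^ i * val (List.replicate (k - (i + 1)) 2) * val [2 * (i + 1)])) :=
        tendsto_finsetSum _ fun i _ => ((tendsto_H _ (adm_rep2 _)).const_mul _).mul
          (tendsto_H _ (adm_even (by omega)))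
      have h3 : (fun N => (k : ℝ) * eS k N) =
          fun N => ∑ i ∈ Finset.range k, (-1 : ℝ) ^ i * eS (k - (i + 1)) N * pS (i + 1) N :=
        funext fun N => newton_id k N
      rw [h3] at h1
      have h4 := tendsto_nhds_unique h1 h2
      have h5 : ∀ i ∈ Finset.range k, ∃ q : ℚ, (-1 : ℝ) ^ i * val (List.replicate (k - (i + 1)) 2) *
          val [2 * (i + 1)] = q * Real.pi ^ (2 * k) := by
        intro i hi
        have hik := Finset.mem_range.1 hi
        obtain ⟨r, _, hr⟩ := ih (k - (i + 1)) (by omega)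
        obtain ⟨q, hq⟩ := val_even (i := i + 1) (by omega)
        refine ⟨(-1) ^ i * r * q, ?_⟩
        rw [hr, hq]
        push_cast
        have e : Real.pi ^ (2 * k) = Real.pi ^ (2 * (k - (i + 1))) * Real.pi ^ (2 * (i + 1)) := by
          rw [← pow_add]
          congr 1
          omega
        rw [e]
        ring
      choose! q hq using h5
      refine ⟨(∑ i ∈ Finset.range k, q i) / k, ?_⟩
      rw [Finset.sum_congr rfl hq, ← Finset.sum_mul] at h4
      have hk0 : (k : ℝ) ≠ 0 := by positivity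
      push_cast
      field_simp
      linarith

end Pool.Agent.K7.H57.Suf
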