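import Mathlib
import Pool.Agent.K7.H57.Suf.Gen
import Pool.Agent.K7.H57.Suf.Two
import Pool.Agent.Q217.MZ.PrefixGen
import Pool.Agent.Q217.MZ.DirPi

/-!
# Products of `(xy)^j` with words `v s`
-/

set_option autoImplicit false

namespace Pool.Agent.K7.H57.Suf

open Filter Topology
open Pool.Agent.H447R2.MZ (H Adm val)
open Pool.Agent.TH507.DS (sh word el Zh stI decA Zh_el)
open Pool.Agent.TH507.WD (mz)
open Pool.Agent.Q217.MZ (mz_shuffleA mz_wordA mz_val LM_pi_sq)

lemma stI_eq (k l : List ℕ) : stI k l = Pool.Agent.H447R2.MZ.st k l := by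
  induction k, l using Pool.Agent.H447R2.MZ.st.induct with
  | case1 l => rw [stI, Pool.Agent.H447R2.MZ.st]
  | case2 i k => rw [stI, Pool.Agent.H447R2.MZ.st]
  | case3 i k j l ih1 ih2 ih3 => rw [stI, Pool.Agent.H447R2.MZ.st, ih1, ih2, ih3]

lemma Zh_shuffle {k l : List ℕ} (hk : Adm k) (hl : Adm l) :
    Zh (el (sh (word k) (word l))) = val k * val l := by
  rw [Zh_el, ← mz_shuffleA hk hl, mz_val k hk, mz_val l hl]

lemma Zh_stuffle {k l : List ℕ} (hk : Adm k) (hl : Adm l) :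
    Zh (el ((stI k l).map word)) = val k * val l := by
  rw [Zh_el, Pool.Agent.H447R2.MZ.val_mul k l hk hl, stI_eq, List.map_map]
  congr 1
  refine List.map_congr_left fun m hm => ?_
  have hadm := Pool.Agent.H447R2.MZ.st_adm k l hk hl m hm
  simp only [Function.comp]
  rw [mz_wordA hadm, mz_val m hadm]

/-- the index of the word `u x^j s`, `v = (u, j)` -/
def glue (v : List ℕ × ℕ) : List ℕ → List ℕ
  | [] => v.1
  | a :: t => v.1 ++ (a + v.2) :: t

theorem two_main (V : Finset (List ℕ × ℕ)) (hV : ∀ v ∈ V, Adm v.1) (J : ℕ) :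
    ∃ κ γ : ℝ, 0 < κ ∧ 0 < γ ∧ ∃ M : ℕ, 2 ≤ M ∧ ∀ (a : ℕ) (s : List ℕ), 1 ≤ a → (∀ t ∈ s, 1 ≤ t) →
      (∀ x ∈ V, x.1 = [] → 2 ≤ a + x.2) → ∀ c : ℕ → List ℕ × ℕ → ℤ,
      (∀ j ≤ J, ∀ v ∈ V, |(c j v : ℝ)| ≤ κ * ((s.length : ℝ) + 1) ^ γ) →
      (∃ j ≤ J, ∃ v ∈ V, c j v ≠ 0) →
      κ * ((s.length : ℝ) + 1)⁻¹ * val (M :: a :: s) ≤
        |∑ v ∈ V, ∑ j ∈ Finset.range (J + 1), (c j v : ℝ) * (val (List.replicate j 2) *
          val (v.1 ++ (a + v.2) :: s))| := by
  classical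
  obtain ⟨κ, γ, hκ, hγ, M, hM, h⟩ := main_gen _ (LM_pi_sq J) V hV
  choose r hr0 hr using val_two
  set R : ℕ := ∏ j ∈ Finset.range (J + 1), (r j).den with hR
  have hR1 : 1 ≤ R := Nat.succ_le_of_lt (Finset.prod_pos fun j _ => Rat.den_pos _)
  have hz : ∀ j ∈ Finset.range (J + 1), ∃ z : ℤ, z ≠ 0 ∧ (R : ℝ) * r j = z := by
    intro j hj
    obtain ⟨e, he⟩ := Finset.dvd_prod_of_mem (fun j => (r j).den) hj
    have he' : R = (r j).den * e := by rw [hR, he]
    refine ⟨e * (r j).num, mul_ne_zero ?_ (Rat.num_ne_zero.2 (hr0 j)), ?_⟩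
    · rintro h0
      have : e = 0 := by exact_mod_cast h0
      rw [this, mul_zero] at he'
      omega
    · rw [he']
      have h3 := Rat.mul_den_eq_num (r j)
      have h4 : ((r j : ℚ) : ℝ) * ((r j).den : ℝ) = ((r j).num : ℝ) := by exact_mod_cast h3
      push_cast
      rw [← h4]
      ring
  choose! z hz0 hz using hz
  set S : ℝ := ∑ j ∈ Finset.range (J + 1), |(z j : ℝ)| + 1 with hS
  have hS0 : 0 < S := by
    have : 0 ≤ ∑ j ∈ Finset.range (J + 1), |(z j : ℝ)| := Finset.sum_nonneg fun _ _ => abs_nonneg _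
    linarith
  have hRr : (1 : ℝ) ≤ R := by exact_mod_cast hR1
  have hR0 : (0 : ℝ) < R := by linarith
  refine ⟨min (κ / S) (κ / R), γ, lt_min (by positivity) (by positivity), hγ, M, hM, ?_⟩
  intro a s ha hs hnil c hc hne
  have h1 := h a s ha hs hnil (fun v i => c i v * z i) (fun v hv i => ?_) ?_
  · have hi : ∀ v, ∑ i : Fin (J + 1), ((c i v * z i : ℤ) : ℝ) * (Real.pi ^ 2) ^ (i : ℕ) =
        R * ∑ j ∈ Finset.range (J + 1), (c j v : ℝ) * val (List.replicate j 2) := by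
      intro v
      rw [Finset.mul_sum, ← Fin.sum_univ_eq_sum_range (fun j => (R : ℝ) * ((c j v : ℝ) * val (List.replicate j 2))) (J + 1)]
      refine Finset.sum_congr rfl fun i _ => ?_
      rw [hr]
      push_cast
      rw [← hz i (Finset.mem_range.2 i.2), ← pow_mul]
      ring
    have h2 : ∑ v ∈ V, (∑ i : Fin (J + 1), ((c i v * z i : ℤ) : ℝ) * (Real.pi ^ 2) ^ (i : ℕ)) *
        val (v.1 ++ (a + v.2) :: s) = R * ∑ v ∈ V, ∑ j ∈ Finset.range (J + 1), (c j v : ℝ) *
          (val (List.replicate j 2) * val (v.1 ++ (a + v.2) :: s)) := by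
      rw [Finset.mul_sum]
      refine Finset.sum_congr rfl fun v _ => ?_
      rw [hi, mul_assoc, Finset.sum_mul]
      congr 1
      exact Finset.sum_congr rfl fun j _ => by ring
    rw [h2, abs_mul, abs_of_pos hR0] at h1
    have hv : 0 ≤ ((s.length : ℝ) + 1)⁻¹ * val (M :: a :: s) := by
      have hadm : Adm (M :: a :: s) := by
        refine ⟨fun x hx => ?_, fun x t h => ?_⟩
        · rcases List.mem_cons.1 hx with rfl | hx
          · omega
          · rcases List.mem_cons.1 hx with rfl | hx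
            · exact ha
            · exact hs x hx
        · rw [← (List.cons.inj h).1]
          exact hM
      have := (val_pos hadm).le
      positivity
    have h3 : min (κ / S) (κ / R) * ((s.length : ℝ) + 1)⁻¹ * val (M :: a :: s) ≤
        (κ * ((s.length : ℝ) + 1)⁻¹ * val (M :: a :: s)) / R := by
      rw [mul_assoc, mul_assoc, mul_div_right_comm]
      exact mul_le_mul_of_nonneg_right (min_le_right _ _) hv
    refine h3.trans ?_
    rw [div_le_iff₀ hR0, mul_comm _ (R : ℝ)]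
    exact h1
  · push_cast
    rw [abs_mul]
    have hi : (i : ℕ) ∈ Finset.range (J + 1) := Finset.mem_range.2 i.2
    have h2 := hc i (by have := i.2; omega) v hv
    have h3 : |(z i : ℝ)| ≤ S := by
      have := Finset.single_le_sum (f := fun j => |(z j : ℝ)|) (fun j _ => abs_nonneg _) hi
      linarith
    have hL : (0 : ℝ) ≤ ((s.length : ℝ) + 1) ^ γ := by positivity
    calc |(c i v : ℝ)| * |(z i : ℝ)| ≤ (κ / S * ((s.length : ℝ) + 1) ^ γ) * S := by
          refine mul_le_mul (h2.trans ?_) h3 (abs_nonneg _) (by positivity)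
          exact mul_le_mul_of_nonneg_right (min_le_left _ _) hL
      _ = κ * ((s.length : ℝ) + 1) ^ γ := by
          field_simp
  · obtain ⟨j, hj, v, hv, hcj⟩ := hne
    exact ⟨v, hv, ⟨j, by omega⟩, mul_ne_zero hcj (hz0 j (Finset.mem_range.2 (by omega)))⟩

end Pool.Agent.K7.H57.Suf
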