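import Mathlib
import Pool.Agent.K7.H57.Suf.Gen

/-!
# Words `v s` over a finite family of numbers whose small linear forms have a gap
-/

set_option autoImplicit false

namespace Pool.Agent.K7.H57.Suf

open Filter Topology
open Pool.Agent.H447R2.MZ (H H_nil H_cons H_cons_zero H_cons_succ H_nonneg Adm val tendsto_H H_le_val)

/-- real coefficients are determined by the first coefficients of the expansions -/
lemma real_inv (V : Finset (List ℕ × ℕ)) (hV : ∀ x ∈ V, Adm x.1) : ∃ M D : ℕ, 1 ≤ D ∧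
    (∀ x ∈ V, ∀ k ≤ M, ∃ z : ℤ, (D : ℝ) * hR (Wx x) k = z) ∧
    ∀ y : List ℕ × ℕ → ℝ, (∀ k ≤ M, ∑ x ∈ V, y x * hR (Wx x) k = 0) → ∀ x ∈ V, y x = 0 := by
  classical
  obtain ⟨M, D, hD, h1, h2⟩ := first' V hV
  refine ⟨M, D, hD, h2, ?_⟩
  have hD0 : (D : ℝ) ≠ 0 := by positivity
  choose! z hz using h2
  let f : (V → ℚ) →ₗ[ℚ] (Fin (M + 1) → ℚ) :=
    LinearMap.pi fun k => ∑ x : V, ((z x.1 k : ℤ) : ℚ) • LinearMap.proj x
  have hf : ∀ y k, f y k = ∑ x : V, ((z x.1 k : ℤ) : ℚ) * y x := by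
    intro y k
    simp [f]
  have hinj : LinearMap.ker f = ⊥ := by
    rw [LinearMap.ker_eq_bot']
    intro y hy
    obtain ⟨N, hN0, hN⟩ : ∃ N : ℕ, N ≠ 0 ∧ ∀ x : V, ∃ m : ℤ, (N : ℚ) * y x = m := by
      refine ⟨∏ x : V, (y x).den, Finset.prod_ne_zero_iff.2 fun x _ => (y x).den_nz, fun x => ?_⟩
      obtain ⟨e, he⟩ := Finset.dvd_prod_of_mem (fun x : V => (y x).den) (Finset.mem_univ x)
      refine ⟨e * (y x).num, ?_⟩
      rw [he]
      have h3 := Rat.mul_den_eq_num (y x)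
      push_cast
      rw [← h3]
      ring
    choose m hm using hN
    by_contra hne
    have hne' : ∃ x : V, m x ≠ 0 := by
      by_contra h
      push Not at h
      apply hne
      funext x
      have h4 := hm x
      rw [h x, Int.cast_zero] at h4
      rcases mul_eq_zero.1 h4 with h5 | h5
      · exact absurd (by exact_mod_cast h5) hN0
      · exact h5
    obtain ⟨x0, hx0⟩ := hne'
    let c : List ℕ × ℕ → ℤ := fun x => if hx : x ∈ V then m ⟨x, hx⟩ else 0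
    obtain ⟨k, hk, hk'⟩ := h1 c ⟨x0.1, x0.2, by simpa [c] using hx0⟩
    apply hk'
    have h5 := congrFun hy ⟨k, by omega⟩
    rw [hf] at h5
    have h6 : ∑ x : V, z x.1 k * m x = 0 := by
      have h7 : ((∑ x : V, z x.1 k * m x : ℤ) : ℚ) = N * ∑ x : V, ((z x.1 k : ℤ) : ℚ) * y x := by
        push_cast
        rw [Finset.mul_sum]
        refine Finset.sum_congr rfl fun x _ => ?_
        rw [← hm x]
        ring
      rw [h5, Pi.zero_apply, mul_zero] at h7
      exact_mod_cast h7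
    have h8 : (D : ℝ) * ∑ x ∈ V, (c x : ℝ) * hR (Wx x) k = ((∑ x : V, z x.1 k * m x : ℤ) : ℝ) := by
      rw [Finset.mul_sum, ← Finset.sum_coe_sort V]
      push_cast
      refine Finset.sum_congr rfl fun x _ => ?_
      have h9 : c x.1 = m x := by simp [c]
      rw [h9, ← hz x.1 x.2 k hk]
      ring
    rw [h6, Int.cast_zero] at h8
    exact (mul_eq_zero.1 h8).resolve_left hD0
  obtain ⟨g, hg⟩ := f.exists_leftInverse_of_injective hinj
  intro y hy x hx
  -- the left inverse is a rational matrix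
  have hmat : ∀ x x' : V, ∑ k : Fin (M + 1), g (Pi.single k 1) x * ((z x'.1 k : ℤ) : ℚ) =
      if x' = x then 1 else 0 := by
    intro x x'
    have e1 := LinearMap.congr_fun hg (Pi.single x' 1)
    have e2 := congrFun e1 x
    rw [LinearMap.comp_apply, LinearMap.id_apply, Pi.single_apply] at e2
    have e3 : f (Pi.single x' 1) = ∑ k : Fin (M + 1), ((z x'.1 k : ℤ) : ℚ) • Pi.single k (1 : ℚ) := by
      funext k
      rw [hf, Finset.sum_apply, Finset.sum_eq_single x']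
      · rw [Finset.sum_eq_single k]
        · simp
        · intro k' _ hk'
          simp [hk'.symm]
        · simp
      · intro x'' _ hx''
        rw [Pi.single_eq_of_ne hx'', mul_zero]
      · simp
    rw [e3, map_sum, Finset.sum_apply] at e2
    have e4 : (if x = x' then (1 : ℚ) else 0) = if x' = x then 1 else 0 := by
      by_cases h : x = x'
      · rw [if_pos h, if_pos h.symm]
      · rw [if_neg h, if_neg (Ne.symm h)]
    rw [← e4, ← e2]
    refine Finset.sum_congr rfl fun k _ => ?_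
    rw [map_smul, Pi.smul_apply, smul_eq_mul, mul_comm]
  have h3 : y x = ∑ k : Fin (M + 1), ((g (Pi.single k 1) ⟨x, hx⟩ : ℚ) : ℝ) *
      ((D : ℝ) * ∑ x' ∈ V, y x' * hR (Wx x') k) := by
    have h4 : ∀ k : Fin (M + 1), (D : ℝ) * ∑ x' ∈ V, y x' * hR (Wx x') k =
        ∑ x' : V, y x'.1 * (((z x'.1 k : ℤ) : ℚ) : ℝ) := by
      intro k
      rw [Finset.mul_sum, ← Finset.sum_coe_sort V]
      refine Finset.sum_congr rfl fun x' _ => ?_
      have := hz x'.1 x'.2 k (by have := k.2; omega)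
      push_cast
      rw [← this]
      ring
    simp_rw [h4, Finset.mul_sum]
    rw [Finset.sum_comm]
    have h5 : ∀ x' : V, ∑ k : Fin (M + 1), ((g (Pi.single k 1) ⟨x, hx⟩ : ℚ) : ℝ) *
        (y x'.1 * (((z x'.1 k : ℤ) : ℚ) : ℝ)) = y x'.1 * (if x' = ⟨x, hx⟩ then 1 else 0) := by
      intro x'
      have h6 := congrArg (Rat.cast : ℚ → ℝ) (hmat ⟨x, hx⟩ x')
      have h7 : (((if x' = ⟨x, hx⟩ then 1 else 0 : ℚ)) : ℝ) = if x' = ⟨x, hx⟩ then 1 else 0 := by
        split_ifs <;> simp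
      rw [h7] at h6
      rw [← h6]
      push_cast
      rw [Finset.mul_sum]
      exact Finset.sum_congr rfl fun k _ => by ring
    simp_rw [h5]
    simp
  rw [h3]
  refine Finset.sum_eq_zero fun k _ => ?_
  rw [hy k (by have := k.2; omega), mul_zero, mul_zero]

/-- **The gap lemma.** -/
theorem gap_gen (V : Finset (List ℕ × ℕ)) (hV : ∀ x ∈ V, Adm x.1) : ∃ κ A : ℝ, 0 < κ ∧ 1 ≤ A ∧
    ∃ M : ℕ, 2 ≤ M ∧ ∀ {ι : Type} [Fintype ι] (θ : ι → ℝ) (Q g : ℝ), 0 ≤ Q → 0 < g →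
      (∀ q : ι → ℤ, (∀ i, |(q i : ℝ)| ≤ A * Q) → ∑ i, (q i : ℝ) * θ i = 0 ∨ g ≤ |∑ i, (q i : ℝ) * θ i|) →
      ∀ (a : ℕ) (s : List ℕ), 1 ≤ a → (∀ t ∈ s, 1 ≤ t) → (∀ x ∈ V, x.1 = [] → 2 ≤ a + x.2) →
      Q * ∑ i, |θ i| ≤ κ * g * ((s.length : ℝ) + 1) →
      ∀ c : List ℕ × ℕ → ι → ℤ, (∀ x ∈ V, ∀ i, |(c x i : ℝ)| ≤ Q) →
      (∃ x ∈ V, ∑ i, (c x i : ℝ) * θ i ≠ 0) →
      κ * g * val (M :: a :: s) ≤
        |∑ x ∈ V, (∑ i, (c x i : ℝ) * θ i) * val (x.1 ++ (a + x.2) :: s)| := by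
  classical
  obtain ⟨M0, D, hD1, hden, hinj⟩ := real_inv V hV
  set M1 := max M0 1 with hM1
  have hDr : (1 : ℝ) ≤ D := by exact_mod_cast hD1
  have hD0 : (0 : ℝ) < D := by linarith
  set Z : ℝ := ∑ x ∈ V, val x.1 with hZ
  have hZ0 : 0 ≤ Z := Finset.sum_nonneg fun x hx => (val_pos (hV x hx)).le
  set R : ℝ := ∑ x ∈ V, H (Wx x) M0 with hR0
  have hRn : 0 ≤ R := Finset.sum_nonneg fun x _ => H_nonneg _ _
  set A1 : ℝ := D * R + 1 with hA1
  have hA10 : 1 ≤ A1 := by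
    rw [hA1]
    have := mul_nonneg hD0.le hRn
    linarith
  have hadm1 : Adm [M1 + 1] := ⟨by simp, fun x t h => by
    rw [← (List.cons.inj h).1]
    omega⟩
  set V1 : ℝ := val [M1 + 1] with hV1
  have hV10 : 0 < V1 := val_pos hadm1
  set κ1 : ℝ := (1 / D) / (2 * (Z * ((M0 : ℝ) + 1) * ((M0 : ℝ) + 2) + 1)) with hκ1
  have hκ10 : 0 < κ1 := by rw [hκ1]; positivity
  set κ2 : ℝ := (1 / D) / (2 * V1) with hκ2
  have hκ20 : 0 < κ2 := by rw [hκ2]; positivity
  set κ : ℝ := min κ1 κ2 with hκ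
  have hκp : 0 < κ := lt_min hκ10 hκ20
  have hκle2 : κ ≤ κ1 := min_le_left _ _
  have hκle3 : κ ≤ κ2 := min_le_right _ _
  refine ⟨κ, A1, hκp, hA10, M1 + 1, by omega, fun {ι} _ θ Q g0 hQ hg0 hgap a s ha hs hnil hL c hc hne => ?_⟩
  set Θ : ℝ := ∑ i, |θ i| with hΘ
  have hΘ0 : 0 ≤ Θ := Finset.sum_nonneg fun i _ => abs_nonneg _
  -- admissibility
  have hadmu : ∀ x ∈ V, Adm (x.1 ++ (a + x.2) :: s) := by
    intro x hx
    refine ⟨fun y hy => ?_, fun y t h => ?_⟩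
    · rcases List.mem_append.1 hy with h | h
      · exact (hV x hx).1 y h
      · rcases List.mem_cons.1 h with rfl | h
        · omega
        · exact hs y h
    · have h0 := hnil x hx
      have h1 := hV x hx
      revert h h0 h1
      generalize x.1 = u
      intro h h0 h1
      cases u with
      | nil =>
        rw [List.nil_append] at h
        rw [← (List.cons.inj h).1]
        exact h0 rfl
      | cons b p =>
        rw [List.cons_append] at h
        rw [← (List.cons.inj h).1]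
        exact h1.2 b p rfl
  have hadmM : Adm ([M1 + 1] ++ a :: s) := by
    refine ⟨fun x hx => ?_, fun x t h => ?_⟩
    · rcases List.mem_append.1 hx with h | h
      · exact hadm1.1 x h
      · rcases List.mem_cons.1 h with rfl | h
        · exact ha
        · exact hs x h
    · rw [List.cons_append] at h
      rw [← (List.cons.inj h).1]
      omega
  set L : ℝ := (s.length : ℝ) + 1 with hLd
  have hL1 : 1 ≤ L := by rw [hLd]; linarith [Nat.cast_nonneg (α := ℝ) s.length]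
  have hL0 : 0 < L := by linarith
  -- the first coefficient
  have hex : ∃ k, k ≤ M0 ∧ ∑ x ∈ V, (∑ i, (c x i : ℝ) * θ i) * hR (Wx x) k ≠ 0 := by
    obtain ⟨x, hx, hi⟩ := hne
    by_contra hcon
    push Not at hcon
    exact hi (hinj (fun x => ∑ i, (c x i : ℝ) * θ i) hcon x hx)
  have hk0 := Nat.find_spec hex
  have hG0 : ∀ k < Nat.find hex, ∑ x ∈ V, (∑ i, (c x i : ℝ) * θ i) * hR (Wx x) k = 0 := by
    intro k hk
    have h1 := Nat.find_min hex hk
    by_contra h2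
    exact h1 ⟨hk.le.trans hk0.1, h2⟩
  set k0 := Nat.find hex with hk0def
  have hswap : ∀ k, ∑ x ∈ V, (∑ i, (c x i : ℝ) * θ i) * hR (Wx x) k =
      ∑ i, (∑ x ∈ V, (c x i : ℝ) * hR (Wx x) k) * θ i := by
    intro k
    simp_rw [Finset.sum_mul]
    rw [Finset.sum_comm]
    exact Finset.sum_congr rfl fun i _ => Finset.sum_congr rfl fun x _ => by ring
  set g : ℝ := ∑ x ∈ V, (∑ i, (c x i : ℝ) * θ i) * hR (Wx x) k0 with hg
  -- integrality
  have hz : ∀ i, ∃ z : ℤ, (D : ℝ) * ∑ x ∈ V, (c x i : ℝ) * hR (Wx x) k0 = z := by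
    intro i
    have h1 : ∀ x ∈ V, ∃ z : ℤ, (D : ℝ) * hR (Wx x) k0 = z := fun x hx => hden x hx k0 hk0.1
    choose! z hz using h1
    refine ⟨∑ x ∈ V, c x i * z x, ?_⟩
    rw [Finset.mul_sum]
    push_cast
    refine Finset.sum_congr rfl fun x hx => ?_
    rw [← hz x hx]
    ring
  choose q hq using hz
  have hqle : ∀ i, |(q i : ℝ)| ≤ A1 * Q := by
    intro i
    rw [← hq i, abs_mul, abs_of_pos hD0]
    have h1 : |∑ x ∈ V, (c x i : ℝ) * hR (Wx x) k0| ≤ Q * R := by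
      refine (Finset.abs_sum_le_sum_abs _ _).trans ?_
      rw [hR0, Finset.mul_sum]
      refine Finset.sum_le_sum fun x hx => ?_
      rw [abs_mul, abs_of_nonneg (hR_nonneg _ _)]
      have h2 : hR (Wx x) k0 ≤ H (Wx x) M0 := by
        rw [← sum_hR]
        exact Finset.single_le_sum (f := fun k => hR (Wx x) k) (fun k _ => hR_nonneg _ _)
          (Finset.mem_range.2 (by have := hk0.1; omega))
      exact mul_le_mul (hc x hx i) h2 (hR_nonneg _ _) hQ
    calc (D : ℝ) * |∑ x ∈ V, (c x i : ℝ) * hR (Wx x) k0| ≤ D * (Q * R) :=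
          mul_le_mul_of_nonneg_left h1 hD0.le
      _ = (D * R) * Q := by ring
      _ ≤ A1 * Q := mul_le_mul_of_nonneg_right (by rw [hA1]; linarith) hQ
  have hglow : 1 / D * g0 ≤ |g| := by
    have h2 : ∑ i, (q i : ℝ) * θ i = D * g := by
      rw [hg, hswap, Finset.mul_sum]
      refine Finset.sum_congr rfl fun i _ => ?_
      rw [← hq i]
      ring
    rcases hgap q hqle with h1 | h1
    · rw [h2] at h1
      exact absurd ((mul_eq_zero.1 h1).resolve_left hD0.ne') hk0.2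
    · rw [h2, abs_mul, abs_of_pos hD0] at h1
      rw [one_div, inv_mul_le_iff₀ hD0]
      exact h1
  -- the sign
  obtain ⟨σ, hσ1, hσ⟩ : ∃ σ : ℝ, |σ| = 1 ∧ σ * g = |g| := by
    rcases le_total 0 g with h | h
    · exact ⟨1, abs_one, by rw [one_mul, abs_of_nonneg h]⟩
    · exact ⟨-1, by rw [abs_neg, abs_one], by rw [abs_of_nonpos h]; ring⟩
  set B : ℝ := Q * Θ with hB
  have hB0 : 0 ≤ B := mul_nonneg hQ hΘ0
  have hcB : ∀ x ∈ V, |∑ i, (c x i : ℝ) * θ i| ≤ B := by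
    intro x hx
    refine (Finset.abs_sum_le_sum_abs _ _).trans ?_
    rw [hB, hΘ, Finset.mul_sum]
    refine Finset.sum_le_sum fun i _ => ?_
    rw [abs_mul]
    exact mul_le_mul_of_nonneg_right (hc x hx i) (abs_nonneg _)
  have hlow : ∀ m : ℕ, s.length + 1 ≤ m → 1 / D * g0 / 2 * cn m M1 ≤
      σ * ∑ x ∈ V, (∑ i, (c x i : ℝ) * θ i) * Ex x m := by
    intro m hm
    have h1 := tails' V hV (fun x => ∑ i, (c x i : ℝ) * θ i) k0 hcB hG0 (by omega : 1 ≤ m)
    have hk0r : (k0 : ℝ) ≤ M0 := by exact_mod_cast hk0.1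
    have hk00 : (0 : ℝ) ≤ k0 := Nat.cast_nonneg _
    have hmr : L ≤ m := by rw [hLd]; exact_mod_cast hm
    have hm0 : (0 : ℝ) < m := lt_of_lt_of_le hL0 hmr
    have hcn := cn_pos m k0
    have h2 : B * Z * (((k0 : ℝ) + 2) * cn m (k0 + 1)) ≤ 1 / D * g0 / 2 * cn m k0 := by
      rw [cn_succ]
      have h3 : ((k0 : ℝ) + 1) / ((m : ℝ) + k0 + 1) ≤ ((M0 : ℝ) + 1) / L := by
        apply div_le_div₀ (by positivity) (by linarith) hL0
        linarith
      have hBZ : 0 ≤ B * Z := mul_nonneg hB0 hZ0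
      have h4 : B * Z * (((k0 : ℝ) + 2) * (((M0 : ℝ) + 1) / L)) ≤ 1 / D * g0 / 2 := by
        have h5 : B * Z * (((k0 : ℝ) + 2) * (((M0 : ℝ) + 1) / L)) =
            (B / L) * (Z * ((M0 : ℝ) + 1) * ((k0 : ℝ) + 2)) := by
          field_simp
        have h6 : B / L ≤ κ1 * g0 := by
          rw [div_le_iff₀ hL0]
          exact hL.trans (mul_le_mul_of_nonneg_right (mul_le_mul_of_nonneg_right hκle2 hg0.le) hL0.le)
        have h7 : Z * ((M0 : ℝ) + 1) * ((k0 : ℝ) + 2) ≤ Z * ((M0 : ℝ) + 1) * ((M0 : ℝ) + 2) + 1 := by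
          have : Z * ((M0 : ℝ) + 1) * ((k0 : ℝ) + 2) ≤ Z * ((M0 : ℝ) + 1) * ((M0 : ℝ) + 2) :=
            mul_le_mul_of_nonneg_left (by linarith) (by positivity)
          linarith
        have h8 : κ1 * (Z * ((M0 : ℝ) + 1) * ((M0 : ℝ) + 2) + 1) = 1 / D / 2 := by
          rw [hκ1]
          have : Z * ((M0 : ℝ) + 1) * ((M0 : ℝ) + 2) + 1 ≠ 0 := by positivity
          field_simp
        calc B * Z * (((k0 : ℝ) + 2) * (((M0 : ℝ) + 1) / L))
            = (B / L) * (Z * ((M0 : ℝ) + 1) * ((k0 : ℝ) + 2)) := h5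
          _ ≤ (κ1 * g0) * (Z * ((M0 : ℝ) + 1) * ((M0 : ℝ) + 2) + 1) :=
              mul_le_mul h6 h7 (by positivity) (by positivity)
          _ = (κ1 * (Z * ((M0 : ℝ) + 1) * ((M0 : ℝ) + 2) + 1)) * g0 := by ring
          _ = 1 / D * g0 / 2 := by rw [h8]; ring
      calc B * Z * (((k0 : ℝ) + 2) * (cn m k0 * (((k0 : ℝ) + 1) / ((m : ℝ) + k0 + 1))))
          = (B * Z * (((k0 : ℝ) + 2) * (((k0 : ℝ) + 1) / ((m : ℝ) + k0 + 1)))) * cn m k0 := by ring
        _ ≤ (B * Z * (((k0 : ℝ) + 2) * (((M0 : ℝ) + 1) / L))) * cn m k0 := by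
            refine mul_le_mul_of_nonneg_right (mul_le_mul_of_nonneg_left ?_ hBZ) hcn.le
            exact mul_le_mul_of_nonneg_left h3 (by positivity)
        _ ≤ 1 / D * g0 / 2 * cn m k0 := mul_le_mul_of_nonneg_right h4 hcn.le
    have h7 := h1.trans h2
    have h9 : σ * (g * cn m k0) - σ * ∑ x ∈ V, (∑ i, (c x i : ℝ) * θ i) * Ex x m ≤
        |σ * (∑ x ∈ V, (∑ i, (c x i : ℝ) * θ i) * Ex x m - g * cn m k0)| := by
      have := neg_abs_le (σ * (∑ x ∈ V, (∑ i, (c x i : ℝ) * θ i) * Ex x m - g * cn m k0))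
      linarith
    rw [abs_mul, hσ1, one_mul] at h9
    have h8 := h9.trans h7
    have h10 : 1 / D * g0 * cn m k0 ≤ σ * (g * cn m k0) := by
      rw [← mul_assoc, hσ]
      exact mul_le_mul_of_nonneg_right hglow hcn.le
    have h11 : 1 / D * g0 / 2 * cn m k0 ≤ σ * ∑ x ∈ V, (∑ i, (c x i : ℝ) * θ i) * Ex x m := by
      have e : 1 / D * g0 * cn m k0 = 1 / D * g0 / 2 * cn m k0 + 1 / D * g0 / 2 * cn m k0 := by ring
      linarith
    refine le_trans ?_ h11
    have h12 : cn m M1 ≤ cn m k0 := cn_antitone m (hk0.1.trans (le_max_left _ _))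
    exact mul_le_mul_of_nonneg_left h12 (by positivity)
  -- summation
  have hsum : HasSum (fun n : ℕ => H s n * (((n + 1 : ℕ) : ℝ) ^ a)⁻¹ *
      (σ * ∑ x ∈ V, (∑ i, (c x i : ℝ) * θ i) * Ex x (n + 1)))
      (σ * ∑ x ∈ V, (∑ i, (c x i : ℝ) * θ i) * val (x.1 ++ (a + x.2) :: s)) := by
    have h1 : HasSum (fun n : ℕ => ∑ x ∈ V, (∑ i, (c x i : ℝ) * θ i) *
        (H s n * (((n + 1 : ℕ) : ℝ) ^ a)⁻¹ * Ex x (n + 1)))
        (∑ x ∈ V, (∑ i, (c x i : ℝ) * θ i) * val (x.1 ++ (a + x.2) :: s)) :=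
      hasSum_sum fun x hx => (val_hasSum' (hV x hx) (hadmu x hx)).mul_left _
    have h2 : (fun n : ℕ => H s n * (((n + 1 : ℕ) : ℝ) ^ a)⁻¹ *
        (σ * ∑ x ∈ V, (∑ i, (c x i : ℝ) * θ i) * Ex x (n + 1))) =
        fun n : ℕ => σ * ∑ x ∈ V, (∑ i, (c x i : ℝ) * θ i) *
          (H s n * (((n + 1 : ℕ) : ℝ) ^ a)⁻¹ * Ex x (n + 1)) := by
      funext n
      rw [mul_left_comm, Finset.mul_sum]
      congr 1
      exact Finset.sum_congr rfl fun u _ => by ring
    rw [h2]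
    exact h1.mul_left σ
  have hsumM := (val_hasSum hadm1 hadmM).mul_left (κ2 * g0)
  have hfin : κ2 * g0 * val ([M1 + 1] ++ a :: s) ≤
      σ * ∑ x ∈ V, (∑ i, (c x i : ℝ) * θ i) * val (x.1 ++ (a + x.2) :: s) := by
    refine hasSum_le (fun n => ?_) hsumM hsum
    rcases Nat.lt_or_ge n s.length with hn | hn
    · rw [H_zero_of_lt s n hn]
      simp
    · have h1 := hlow (n + 1) (by omega)
      have h2 := T_single M1 (le_max_right _ _) (n + 1)
      have hw : 0 ≤ H s n * (((n + 1 : ℕ) : ℝ) ^ a)⁻¹ := mul_nonneg (H_nonneg _ _) (by positivity)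
      have h3 : κ2 * g0 * T [M1 + 1] (n + 1) ≤
          σ * ∑ x ∈ V, (∑ i, (c x i : ℝ) * θ i) * Ex x (n + 1) := by
        refine le_trans (mul_le_mul_of_nonneg_left h2 (by positivity)) (le_trans (le_of_eq ?_) h1)
        rw [hκ2, ← hV1]
        field_simp
      calc κ2 * g0 * (H s n * (((n + 1 : ℕ) : ℝ) ^ a)⁻¹ * T [M1 + 1] (n + 1))
          = H s n * (((n + 1 : ℕ) : ℝ) ^ a)⁻¹ * (κ2 * g0 * T [M1 + 1] (n + 1)) := by ring
        _ ≤ _ := mul_le_mul_of_nonneg_left h3 hw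
  have h14 : σ * ∑ x ∈ V, (∑ i, (c x i : ℝ) * θ i) * val (x.1 ++ (a + x.2) :: s) ≤
      |∑ x ∈ V, (∑ i, (c x i : ℝ) * θ i) * val (x.1 ++ (a + x.2) :: s)| := by
    refine (le_abs_self _).trans (le_of_eq ?_)
    rw [abs_mul, hσ1, one_mul]
  refine le_trans ?_ (hfin.trans h14)
  rw [List.singleton_append]
  have hvp := val_pos hadmM
  rw [List.singleton_append] at hvp
  exact mul_le_mul_of_nonneg_right (mul_le_mul_of_nonneg_right hκle3 hg0.le) hvp.le

end Pool.Agent.K7.H57.Suf
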