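import Mathlib
import Pool.Agent.K7.H57.Suf.Gap
import Pool.Agent.K7.H57.Suf.DSh

/-!
# Products of two words with long last parts
-/

set_option autoImplicit false

namespace Pool.Agent.K7.H57.Suf

open Pool.Agent.H447R2.MZ (Adm val)

lemma adm_cons {M a : ℕ} {s : List ℕ} (hM : 2 ≤ M) (ha : 1 ≤ a) (hs : ∀ x ∈ s, 1 ≤ x) : Adm (M :: a :: s) := by
  refine ⟨fun x hx => ?_, fun x t h => ?_⟩
  · rcases List.mem_cons.1 hx with rfl | hx
    · omega
    · rcases List.mem_cons.1 hx with rfl | hx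
      · exact ha
      · exact hs x hx
  · rw [← (List.cons.inj h).1]
    exact hM

lemma adm_glue {x : List ℕ × ℕ} {a : ℕ} {s : List ℕ} (hx : Adm x.1) (ha : 1 ≤ a) (hs : ∀ y ∈ s, 1 ≤ y)
    (h0 : x.1 = [] → 2 ≤ a + x.2) : Adm (x.1 ++ (a + x.2) :: s) := by
  refine ⟨fun y hy => ?_, fun y t h => ?_⟩
  · rcases List.mem_append.1 hy with h | h
    · exact hx.1 y h
    · rcases List.mem_cons.1 h with rfl | h
      · omega
      · exact hs y h
  · revert h h0 hx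
    generalize x.1 = u
    intro h1 h0 h
    cases u with
    | nil =>
      rw [List.nil_append] at h
      rw [← (List.cons.inj h).1]
      exact h0 rfl
    | cons b p =>
      rw [List.cons_append] at h
      rw [← (List.cons.inj h).1]
      exact h1.2 b p rfl

/-- the gap of the values of the words `v s` -/
theorem gap_one (V : Finset (List ℕ × ℕ)) (hV : ∀ x ∈ V, Adm x.1) : ∃ κ : ℝ, 0 < κ ∧
    ∃ M : ℕ, 2 ≤ M ∧ ∀ (a : ℕ) (s : List ℕ), 1 ≤ a → (∀ t ∈ s, 1 ≤ t) → (∀ x ∈ V, x.1 = [] → 2 ≤ a + x.2) →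
      ∀ c : List ℕ × ℕ → ℤ, (∀ x ∈ V, |(c x : ℝ)| ≤ κ * ((s.length : ℝ) + 1)) → (∃ x ∈ V, c x ≠ 0) →
      κ * val (M :: a :: s) ≤ |∑ x ∈ V, (c x : ℝ) * val (x.1 ++ (a + x.2) :: s)| := by
  obtain ⟨κ, A, hκ, hA, M, hM, h⟩ := gap_gen V hV
  refine ⟨κ, hκ, M, hM, fun a s ha hs hnil c hc hne => ?_⟩
  have h1 := h (ι := Unit) (fun _ => 1) (κ * ((s.length : ℝ) + 1)) 1 (by positivity) one_pos
    (fun q _ => by
      simp only [Finset.univ_unique, Finset.sum_singleton, mul_one]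
      rcases eq_or_ne (q default) 0 with h0 | h0
      · left
        rw [h0, Int.cast_zero]
      · right
        exact_mod_cast Int.one_le_abs h0)
    a s ha hs hnil (by simp) (fun x _ => c x) (fun x hx _ => hc x hx) (by
      obtain ⟨x, hx, hcx⟩ := hne
      refine ⟨x, hx, ?_⟩
      simp only [Finset.univ_unique, Finset.sum_singleton, mul_one]
      exact_mod_cast hcx)
  simpa using h1

theorem two_long (V V' : Finset (List ℕ × ℕ)) (hV : ∀ x ∈ V, Adm x.1) (hV' : ∀ x ∈ V', Adm x.1) :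
    ∃ κ : ℝ, 0 < κ ∧ ∃ M M' : ℕ, 2 ≤ M ∧ 2 ≤ M' ∧ ∀ (a : ℕ) (s : List ℕ) (b : ℕ) (t : List ℕ),
      1 ≤ a → (∀ x ∈ s, 1 ≤ x) → 1 ≤ b → (∀ x ∈ t, 1 ≤ x) → (∀ x ∈ V, x.1 = [] → 2 ≤ a + x.2) →
      (∀ x ∈ V', x.1 = [] → 2 ≤ b + x.2) → ∀ Q : ℝ, 0 ≤ Q → Q ≤ κ * ((s.length : ℝ) + 1) →
      Q * ∑ x ∈ V, val (x.1 ++ (a + x.2) :: s) ≤ κ * val (M :: a :: s) * ((t.length : ℝ) + 1) →
      ∀ c : List ℕ × ℕ → List ℕ × ℕ → ℤ, (∀ x ∈ V, ∀ y ∈ V', |(c x y : ℝ)| ≤ Q) →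
      (∃ x ∈ V, ∃ y ∈ V', c x y ≠ 0) →
      κ * val (M :: a :: s) * val (M' :: b :: t) ≤ |∑ x ∈ V, ∑ y ∈ V', (c x y : ℝ) *
        (val (x.1 ++ (a + x.2) :: s) * val (y.1 ++ (b + y.2) :: t))| := by
  classical
  obtain ⟨κ1, hκ1, M, hM, h1⟩ := gap_one V hV
  obtain ⟨κ2, A2, hκ2, hA2, M', hM', h2⟩ := gap_gen V' hV'
  have hA0 : 0 < A2 := by linarith
  refine ⟨min (κ1 / A2) (κ1 * κ2), lt_min (by positivity) (by positivity), M, M', hM, hM', ?_⟩
  intro a s b t ha hs hb ht hnil hnil' Q hQ hQ1 hQ2 c hc hne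
  have hvM := val_pos (adm_cons hM ha hs)
  have hvM' := val_pos (adm_cons hM' hb ht)
  have hvx : ∀ x ∈ V, 0 < val (x.1 ++ (a + x.2) :: s) := fun x hx =>
    val_pos (adm_glue (hV x hx) ha hs (hnil x hx))
  have hls : (0 : ℝ) < (s.length : ℝ) + 1 := by positivity
  have hlt : (0 : ℝ) < (t.length : ℝ) + 1 := by positivity
  have hQA : A2 * Q ≤ κ1 * ((s.length : ℝ) + 1) := by
    have h3 : Q ≤ κ1 / A2 * ((s.length : ℝ) + 1) :=
      hQ1.trans (mul_le_mul_of_nonneg_right (min_le_left _ _) hls.le)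
    calc A2 * Q ≤ A2 * (κ1 / A2 * ((s.length : ℝ) + 1)) := mul_le_mul_of_nonneg_left h3 hA0.le
      _ = κ1 * ((s.length : ℝ) + 1) := by field_simp
  let θ : V → ℝ := fun x => val (x.1.1 ++ (a + x.1.2) :: s)
  -- the gap of the first family
  have hgap : ∀ q : V → ℤ, (∀ x, |(q x : ℝ)| ≤ A2 * Q) → q ≠ 0 →
      κ1 * val (M :: a :: s) ≤ |∑ x, (q x : ℝ) * θ x| := by
    intro q hq hq0
    let c' : List ℕ × ℕ → ℤ := fun x => if hx : x ∈ V then q ⟨x, hx⟩ else 0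
    have hc' : ∀ x : V, c' x.1 = q x := fun x => by simp [c']
    have h3 := h1 a s ha hs hnil c' (fun x hx => by
      rw [hc' ⟨x, hx⟩]
      exact (hq ⟨x, hx⟩).trans hQA) (by
      obtain ⟨x, hx⟩ := Function.ne_iff.1 hq0
      exact ⟨x.1, x.2, by rw [hc']; exact hx⟩)
    rw [← Finset.sum_coe_sort V] at h3
    simp only [hc'] at h3
    exact h3
  have hΘ : ∑ x, |θ x| = ∑ x ∈ V, val (x.1 ++ (a + x.2) :: s) := by
    rw [← Finset.sum_coe_sort V]
    exact Finset.sum_congr rfl fun x _ => abs_of_pos (hvx x.1 x.2)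
  have hκle : min (κ1 / A2) (κ1 * κ2) ≤ κ1 * κ2 := min_le_right _ _
  have h3 := h2 θ Q (κ1 * val (M :: a :: s)) hQ (by positivity) (fun q hq => by
      rcases eq_or_ne q 0 with h0 | h0
      · left
        rw [h0]
        simp
      · exact Or.inr (hgap q hq h0))
    b t hb ht hnil' (by
      rw [hΘ]
      refine hQ2.trans ?_
      have : min (κ1 / A2) (κ1 * κ2) * val (M :: a :: s) ≤ κ2 * (κ1 * val (M :: a :: s)) := by
        calc min (κ1 / A2) (κ1 * κ2) * val (M :: a :: s) ≤ κ1 * κ2 * val (M :: a :: s) :=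
              mul_le_mul_of_nonneg_right hκle hvM.le
          _ = _ := by ring
      exact mul_le_mul_of_nonneg_right this hlt.le)
    (fun y x => c x.1 y) (fun y hy x => hc x.1 x.2 y hy) (by
      obtain ⟨x, hx, y, hy, hcxy⟩ := hne
      refine ⟨y, hy, fun h0 => ?_⟩
      have h4 := hgap (fun x => c x.1 y) (fun x => (hc x.1 x.2 y hy).trans
        (le_mul_of_one_le_left hQ hA2)) (Function.ne_iff.2 ⟨⟨x, hx⟩, hcxy⟩)
      rw [h0, abs_zero] at h4
      have : 0 < κ1 * val (M :: a :: s) := by positivity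
      linarith)
  have h4 : ∑ y ∈ V', (∑ x : V, (c x.1 y : ℝ) * θ x) * val (y.1 ++ (b + y.2) :: t) =
      ∑ x ∈ V, ∑ y ∈ V', (c x y : ℝ) * (val (x.1 ++ (a + x.2) :: s) * val (y.1 ++ (b + y.2) :: t)) := by
    rw [Finset.sum_comm]
    refine Finset.sum_congr rfl fun y _ => ?_
    rw [← Finset.sum_coe_sort V, Finset.sum_mul]
    exact Finset.sum_congr rfl fun x _ => by simp only [θ]; ring
  rw [h4] at h3
  refine le_trans ?_ h3
  have h5 : min (κ1 / A2) (κ1 * κ2) * val (M :: a :: s) ≤ κ2 * (κ1 * val (M :: a :: s)) := by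
    calc min (κ1 / A2) (κ1 * κ2) * val (M :: a :: s) ≤ κ1 * κ2 * val (M :: a :: s) :=
          mul_le_mul_of_nonneg_right hκle hvM.le
      _ = _ := by ring
  exact mul_le_mul_of_nonneg_right h5 hvM'.le

/-- a finite family of numbers has a gap at every height -/
theorem exists_gap {ι : Type} [Fintype ι] (θ : ι → ℝ) (Q : ℝ) : ∃ g : ℝ, 0 < g ∧
    ∀ q : ι → ℤ, (∀ i, |(q i : ℝ)| ≤ Q) → ∑ i, (q i : ℝ) * θ i = 0 ∨ g ≤ |∑ i, (q i : ℝ) * θ i| := by
  classical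
  obtain ⟨N, hN⟩ := exists_nat_ge Q
  let S : Finset (ι → ℤ) := Fintype.piFinset fun _ => Finset.Icc (-(N : ℤ)) N
  let T : Finset ℝ := (S.image fun q => |∑ i, (q i : ℝ) * θ i|).filter fun x => 0 < x
  have hmem : ∀ q : ι → ℤ, (∀ i, |(q i : ℝ)| ≤ Q) → q ∈ S := by
    intro q hq
    rw [Fintype.mem_piFinset]
    intro i
    have h1 : |(q i : ℝ)| ≤ N := (hq i).trans hN
    rw [abs_le] at h1
    rw [Finset.mem_Icc]
    exact ⟨by exact_mod_cast h1.1, by exact_mod_cast h1.2⟩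
  rcases T.eq_empty_or_nonempty with hT | hT
  · refine ⟨1, one_pos, fun q hq => Or.inl ?_⟩
    by_contra h0
    have : |∑ i, (q i : ℝ) * θ i| ∈ T :=
      Finset.mem_filter.2 ⟨Finset.mem_image_of_mem _ (hmem q hq), abs_pos.2 h0⟩
    rw [hT] at this
    exact Finset.notMem_empty _ this
  · refine ⟨T.min' hT, (Finset.mem_filter.1 (T.min'_mem hT)).2, fun q hq => ?_⟩
    by_cases h0 : ∑ i, (q i : ℝ) * θ i = 0
    · exact Or.inl h0
    · right
      exact T.min'_le _ (Finset.mem_filter.2 ⟨Finset.mem_image_of_mem _ (hmem q hq), abs_pos.2 h0⟩)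

end Pool.Agent.K7.H57.Suf
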